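import Mathlib

set_option autoImplicit false

open MeasureTheory Set Filter Topology Function
open scoped ENNReal

namespace Pool.Agent.H53Z.WB

variable {ι : Type}

open Classical in
/-- switch off the coordinates in `W` -/
noncomputable def off (W : Set ι) (y : ι → Bool) : ι → Bool := fun x => if x ∈ W then false else y x

theorem off_mem {W : Set ι} {x : ι} (h : x ∈ W) (y : ι → Bool) : off W y x = false := by
  simp [off, h]

theorem off_not_mem {W : Set ι} {x : ι} (h : x ∉ W) (y : ι → Bool) : off W y x = y x := by
  simp [off, h]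

theorem measurable_off (W : Set ι) : Measurable (off W) := by
  refine measurable_pi_lambda _ fun x => ?_
  by_cases h : x ∈ W
  · simp only [off_mem h]; exact measurable_const
  · simp only [off_not_mem h]; exact measurable_pi_apply x

theorem off_off (W W' : Set ι) (y : ι → Bool) : off W (off W' y) = off (W ∪ W') y := by
  funext x
  by_cases h : x ∈ W
  · rw [off_mem h, off_mem (W := W ∪ W') (Or.inl h)]
  · rw [off_not_mem h]
    by_cases h' : x ∈ W'
    · rw [off_mem h', off_mem (W := W ∪ W') (Or.inr h')]
    · rw [off_not_mem h', off_not_mem (by rintro (h1 | h1) <;> contradiction)]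

theorem off_empty (y : ι → Bool) : off (∅ : Set ι) y = y := by
  funext x; exact off_not_mem (by simp) y

theorem off_singleton [DecidableEq ι] (x : ι) (y : ι → Bool) : off {x} y = update y x false := by
  funext u
  by_cases h : u = x
  · subst h; rw [off_mem (by simp)]; simp
  · rw [off_not_mem (by simpa using h), update_of_ne h]

theorem measurable_upd [DecidableEq ι] (x : ι) (b : Bool) :
    Measurable fun y : ι → Bool => update y x b := by
  refine measurable_pi_lambda _ fun u => ?_
  by_cases h : u = x
  · subst h; simp only [update_self]; exact measurable_const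
  · simp only [update_of_ne h]; exact measurable_pi_apply u

/-- `Q` depends only on the coordinates in `Γ` -/
def FinDep (Q : Set (ι → Bool)) (Γ : Finset ι) : Prop :=
  ∀ z z' : ι → Bool, (∀ u ∈ Γ, z u = z' u) → z ∈ Q → z' ∈ Q

theorem FinDep.eq_preimage {Q : Set (ι → Bool)} {Γ : Finset ι} (h : FinDep Q Γ) :
    Q = (fun z : ι → Bool => fun u : Γ => z u) ⁻¹'
      ((fun z : ι → Bool => fun u : Γ => z u) '' Q) := by
  ext z
  constructor
  · intro hz; exact ⟨z, hz, rfl⟩
  · rintro ⟨z', hz', he⟩
    exact h z' z (fun u hu => congrFun he ⟨u, hu⟩) hz'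

theorem FinDep.measurableSet {Q : Set (ι → Bool)} {Γ : Finset ι} (h : FinDep Q Γ) :
    MeasurableSet Q := by
  rw [h.eq_preimage]
  have : Measurable (fun z : ι → Bool => fun u : Γ => z u) :=
    measurable_pi_lambda _ fun u => measurable_pi_apply _
  exact this (Set.toFinite _).measurableSet

theorem FinDep.isClopen {Q : Set (ι → Bool)} {Γ : Finset ι} (h : FinDep Q Γ) : IsClopen Q := by
  rw [h.eq_preimage]
  have : Continuous (fun z : ι → Bool => fun u : Γ => z u) :=
    continuous_pi fun u => continuous_apply _
  exact (isClopen_discrete _).preimage this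

theorem FinDep.mono {Q : Set (ι → Bool)} {Γ Γ' : Finset ι} (h : FinDep Q Γ) (hΓ : Γ ⊆ Γ') :
    FinDep Q Γ' := fun z z' hz => h z z' fun u hu => hz u (hΓ hu)

theorem FinDep.inter [DecidableEq ι] {Q Q' : Set (ι → Bool)} {Γ Γ' : Finset ι} (h : FinDep Q Γ)
    (h' : FinDep Q' Γ') : FinDep (Q ∩ Q') (Γ ∪ Γ') := fun z z' hz hq =>
  ⟨h z z' (fun u hu => hz u (Finset.mem_union_left _ hu)) hq.1,
    h' z z' (fun u hu => hz u (Finset.mem_union_right _ hu)) hq.2⟩

/-- the cylinder around `z` -/
def cyl (Γ : Finset ι) (z : ι → Bool) : Set (ι → Bool) := {z' | ∀ u ∈ Γ, z' u = z u}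

theorem finDep_cyl (Γ : Finset ι) (z : ι → Bool) : FinDep (cyl Γ z) Γ :=
  fun _ _ h h1 u hu => (h u hu).symm.trans (h1 u hu)

theorem self_mem_cyl (Γ : Finset ι) (z : ι → Bool) : z ∈ cyl Γ z := fun _ _ => rfl

/-- approximation of measurable sets by finitely determined sets -/
theorem exists_approx (m : Measure (ι → Bool)) [IsFiniteMeasure m] {N : Set (ι → Bool)}
    (hN : MeasurableSet N) {η : ℝ≥0∞} (hη : 0 < η) :
    ∃ (Q : Set (ι → Bool)) (Γ : Finset ι), FinDep Q Γ ∧ m (symmDiff N Q) ≤ η := by
  have hd := Measure.MeasureDense.of_generateFrom_isSetAlgebra_finite m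
    (isSetAlgebra_measurableCylinders (α := fun _ : ι => Bool))
    (generateFrom_measurableCylinders (α := fun _ : ι => Bool)).symm
  obtain ⟨r, hr0, hr⟩ : ∃ r : ℝ, 0 < r ∧ ENNReal.ofReal r ≤ η := by
    rcases eq_or_ne η ⊤ with h | h
    · exact ⟨1, one_pos, by simp [h]⟩
    · exact ⟨η.toReal, ENNReal.toReal_pos hη.ne' h, by rw [ENNReal.ofReal_toReal h]⟩
  obtain ⟨t, ht, hlt⟩ := hd.approx N hN (measure_ne_top _ _) r hr0
  obtain ⟨s, S, -, rfl⟩ := (mem_measurableCylinders t).1 ht
  refine ⟨cylinder s S, s, ?_, hlt.le.trans hr⟩
  intro z z' h hz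
  rw [mem_cylinder] at hz ⊢
  have : s.restrict z' = s.restrict z := by
    funext u; exact (h u u.2).symm
  rwa [this]

/-- measurable sets depend on countably many coordinates -/
theorem countable_dep_set {A : Set (ι → Bool)} (hA : MeasurableSet A) :
    ∃ H : Set ι, H.Countable ∧ ∀ y y' : ι → Bool, (∀ u ∈ H, y u = y' u) → (y ∈ A ↔ y' ∈ A) := by
  rw [← generateFrom_measurableCylinders (α := fun _ : ι => Bool)] at hA
  induction A, hA using MeasurableSpace.generateFrom_induction with
  | hC t ht _ =>
    obtain ⟨s, S, -, rfl⟩ := (mem_measurableCylinders t).1 ht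
    refine ⟨s, s.countable_toSet, fun y y' h => ?_⟩
    rw [mem_cylinder, mem_cylinder]
    have : s.restrict y' = s.restrict y := by
      funext u; exact (h u u.2).symm
    rw [this]
  | empty => exact ⟨∅, countable_empty, fun _ _ _ => Iff.rfl⟩
  | compl t _ ih =>
    obtain ⟨H, hH, h⟩ := ih
    exact ⟨H, hH, fun y y' hy => not_congr (h y y' hy)⟩
  | iUnion t _ ih =>
    choose H hH h using ih
    refine ⟨⋃ n, H n, countable_iUnion hH, fun y y' hy => ?_⟩
    simp only [mem_iUnion]
    exact exists_congr fun n => h n y y' fun u hu => hy u (mem_iUnion.2 ⟨n, hu⟩)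

theorem countable_dep_fun {G : (ι → Bool) → ℝ≥0∞} (hG : Measurable G) :
    ∃ H : Set ι, H.Countable ∧ ∀ y y' : ι → Bool, (∀ u ∈ H, y u = y' u) → G y = G y' := by
  have h1 : ∀ q : ℚ, ∃ H : Set ι, H.Countable ∧ ∀ y y' : ι → Bool, (∀ u ∈ H, y u = y' u) →
      (y ∈ G ⁻¹' Iio (ENNReal.ofReal q) ↔ y' ∈ G ⁻¹' Iio (ENNReal.ofReal q)) :=
    fun q => countable_dep_set (hG measurableSet_Iio)
  choose H hH h using h1
  refine ⟨⋃ q, H q, countable_iUnion hH, fun y y' hy => ?_⟩
  have h2 : ∀ q : ℚ, G y < ENNReal.ofReal q ↔ G y' < ENNReal.ofReal q :=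
    fun q => h q y y' fun u hu => hy u (mem_iUnion.2 ⟨q, hu⟩)
  rcases lt_trichotomy (G y) (G y') with hlt | he | hlt
  · obtain ⟨q, -, h3, h4⟩ := ENNReal.lt_iff_exists_rat_btwn.1 hlt
    exact absurd ((h2 q).1 h3) (not_lt.2 h4.le)
  · exact he
  · obtain ⟨q, -, h3, h4⟩ := ENNReal.lt_iff_exists_rat_btwn.1 hlt
    exact absurd ((h2 q).2 h3) (not_lt.2 h4.le)

variable (μ : ι → Measure Bool) [∀ i, IsProbabilityMeasure (μ i)]

/-- resampling one coin -/
theorem resample [DecidableEq ι] (x : ι) :
    μ x {true} • (Measure.infinitePi μ).map (fun y => update y x true) +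
      μ x {false} • (Measure.infinitePi μ).map (fun y => update y x false) =
      Measure.infinitePi μ := by
  apply Measure.eq_infinitePi
  intro s t ht
  have hm : MeasurableSet (Set.pi (s : Set ι) t) := .pi s.countable_toSet fun i _ => ht i
  have key : ∀ b : Bool, (Measure.infinitePi μ).map (fun y => update y x b) (Set.pi s t) =
      (if x ∈ s then (t x).indicator 1 b else 1) * ∏ i ∈ s.erase x, μ i (t i) := by
    intro b
    rw [Measure.map_apply (measurable_upd x b) hm]
    by_cases hb : x ∈ s ∧ b ∉ t x
    · have : (fun y : ι → Bool => update y x b) ⁻¹' (Set.pi s t) = ∅ := by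
        ext y
        simp only [mem_preimage, Set.mem_pi, Finset.mem_coe, mem_empty_iff_false, iff_false]
        intro h
        have := h x hb.1
        rw [update_self] at this
        exact hb.2 this
      rw [this, if_pos hb.1, indicator_of_notMem hb.2]; simp
    · have : (fun y : ι → Bool => update y x b) ⁻¹' (Set.pi s t) = Set.pi (s.erase x) t := by
        ext y
        simp only [mem_preimage, Set.mem_pi, Finset.mem_coe, Finset.mem_erase]
        constructor
        · intro h i hi
          have := h i hi.2
          rwa [update_of_ne hi.1] at this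
        · intro h i hi
          by_cases hix : i = x
          · subst hix
            rw [update_self]
            by_contra hc
            exact hb ⟨hi, hc⟩
          · rw [update_of_ne hix]; exact h i ⟨hix, hi⟩
      rw [this, Measure.infinitePi_pi μ fun i _ => ht i]
      by_cases hx : x ∈ s
      · have hbt : b ∈ t x := by
          by_contra hc; exact hb ⟨hx, hc⟩
        rw [if_pos hx, indicator_of_mem hbt]; simp
      · rw [if_neg hx]; simp
  rw [Measure.add_apply, Measure.smul_apply, Measure.smul_apply, key, key, smul_eq_mul,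
    smul_eq_mul, ← mul_assoc, ← mul_assoc, ← add_mul]
  by_cases hx : x ∈ s
  · rw [← Finset.mul_prod_erase s _ hx]
    congr 1
    simp only [if_pos hx]
    have : μ x (t x) = ∑ b : Bool, μ x {b} * (t x).indicator 1 b := by
      rw [← lintegral_indicator_one (ht x), lintegral_fintype]
      exact Finset.sum_congr rfl fun b _ => mul_comm _ _
    rw [this, Fintype.sum_bool]
  · simp only [if_neg hx, mul_one]
    rw [Finset.erase_eq_of_notMem hx]
    have : μ x {true} + μ x {false} = 1 := by
      rw [← measure_union (by simp) (measurableSet_singleton _)]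
      have : ({true} ∪ {false} : Set Bool) = univ := by
        ext b; cases b <;> simp
      rw [this, measure_univ]
    rw [this, one_mul]

theorem lintegral_resample [DecidableEq ι] (x : ι) {G : (ι → Bool) → ℝ≥0∞} (hG : Measurable G) :
    ∫⁻ y, G y ∂(Measure.infinitePi μ) =
      μ x {true} * ∫⁻ y, G (update y x true) ∂(Measure.infinitePi μ) +
      μ x {false} * ∫⁻ y, G (update y x false) ∂(Measure.infinitePi μ) := by
  conv_lhs => rw [← resample μ x]
  rw [lintegral_add_measure, lintegral_smul_measure, lintegral_smul_measure,
    lintegral_map hG (measurable_upd x true), lintegral_map hG (measurable_upd x false)]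
  rfl

theorem integrable_bdd {α : Type} [MeasurableSpace α] (m : Measure α) [IsFiniteMeasure m]
    {Ψ : α → ℝ} (hΨ : Measurable Ψ) {C : ℝ} (hC : ∀ y, |Ψ y| ≤ C) : Integrable Ψ m :=
  Integrable.of_bound hΨ.aestronglyMeasurable C (Eventually.of_forall hC)

theorem integral_resample [DecidableEq ι] (x : ι) {Ψ : (ι → Bool) → ℝ} (hΨ : Measurable Ψ) {C : ℝ}
    (hC : ∀ y, |Ψ y| ≤ C) :
    ∫ y, Ψ y ∂(Measure.infinitePi μ) =
      (μ x {true}).toReal * ∫ y, Ψ (update y x true) ∂(Measure.infinitePi μ) +
      (μ x {false}).toReal * ∫ y, Ψ (update y x false) ∂(Measure.infinitePi μ) := by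
  conv_lhs => rw [← resample μ x]
  have hf : ∀ b : Bool, IsFiniteMeasure
      (μ x {b} • (Measure.infinitePi μ).map (fun y => update y x b)) := fun b =>
    ⟨by
      rw [Measure.smul_apply, smul_eq_mul]
      exact ENNReal.mul_lt_top (measure_lt_top _ _) (measure_lt_top _ _)⟩
  have := hf true
  have := hf false
  rw [integral_add_measure (integrable_bdd _ hΨ hC) (integrable_bdd _ hΨ hC),
    integral_smul_measure, integral_smul_measure,
    integral_map (measurable_upd x true).aemeasurable hΨ.aestronglyMeasurable,
    integral_map (measurable_upd x false).aemeasurable hΨ.aestronglyMeasurable]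
  rfl

/-- switching off finitely many coins costs a bounded factor -/
theorem off_le (hμ : ∀ x, 3⁻¹ ≤ μ x {false}) (R : Finset ι) :
    ∀ {B : Set (ι → Bool)}, MeasurableSet B →
      Measure.infinitePi μ (off (R : Set ι) ⁻¹' B) ≤ 3 ^ R.card * Measure.infinitePi μ B := by
  classical
  induction R using Finset.induction_on with
  | empty =>
    intro B _
    have : off ((∅ : Finset ι) : Set ι) ⁻¹' B = B := by
      ext y; simp [off_empty]
    rw [this]; simp
  | insert x R hx ih =>
    intro B hB
    have h1 : off ((insert x R : Finset ι) : Set ι) ⁻¹' B =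
        off (R : Set ι) ⁻¹' ((fun y => update y x false) ⁻¹' B) := by
      ext y
      simp only [mem_preimage]
      rw [← off_singleton, off_off]
      simp
    rw [h1, Finset.card_insert_of_notMem hx, pow_succ, mul_assoc]
    refine (ih (measurable_upd x false hB)).trans ?_
    gcongr
    have h2 := congrArg (fun m : Measure (ι → Bool) => m B) (resample μ x)
    simp only [Measure.add_apply, Measure.smul_apply, smul_eq_mul] at h2
    rw [Measure.map_apply (measurable_upd x false) hB] at h2
    calc Measure.infinitePi μ ((fun y => update y x false) ⁻¹' B)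
        = 3 * (3⁻¹ * Measure.infinitePi μ ((fun y => update y x false) ⁻¹' B)) := by
          rw [← mul_assoc, ENNReal.mul_inv_cancel (by norm_num) (by norm_num), one_mul]
      _ ≤ 3 * (μ x {false} * Measure.infinitePi μ ((fun y => update y x false) ⁻¹' B)) := by
          gcongr; exact hμ x
      _ ≤ 3 * Measure.infinitePi μ B := by
          gcongr; rw [← h2]; exact le_add_self

/-- the measures obtained by switching off finitely many coins are total -/
theorem ae_zero_of_off (hμ : ∀ x, μ x {true} ≠ 0) {Ψ : (ι → Bool) → ℝ} (hΨ : Measurable Ψ) {C : ℝ}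
    (hC : ∀ y, |Ψ y| ≤ C)
    (h0 : ∀ R : Finset ι, ∫ y, Ψ (off (R : Set ι) y) ∂(Measure.infinitePi μ) = 0) :
    ∀ᵐ y ∂(Measure.infinitePi μ), Ψ y = 0 := by
  classical
  set P := Measure.infinitePi μ with hP
  have hC0 : 0 ≤ C := (abs_nonneg _).trans (hC fun _ => true)
  have step : ∀ (Ψ : (ι → Bool) → ℝ), Measurable Ψ → (∀ y, |Ψ y| ≤ C) →
      (∀ R : Finset ι, ∫ y, Ψ (off (R : Set ι) y) ∂P = 0) → ∀ (x : ι) (b : Bool),
      ∀ R : Finset ι, ∫ y, Ψ (update (off (R : Set ι) y) x b) ∂P = 0 := by
    intro Ψ hΨ hC h0 x
    have hf : ∀ R : Finset ι, ∫ y, Ψ (update (off (R : Set ι) y) x false) ∂P = 0 := by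
      intro R
      have := h0 (insert x R)
      refine Eq.trans ?_ this
      congr 1
      funext y
      rw [← off_singleton, off_off]
      simp
    intro b
    cases b with
    | false => exact hf
    | true =>
      intro R
      have h1 := integral_resample μ x (Ψ := fun y => Ψ (off ((R.erase x : Finset ι) : Set ι) y))
        (hΨ.comp (measurable_off _)) (fun y => hC _)
      have e : ∀ (b : Bool) (y : ι → Bool), off ((R.erase x : Finset ι) : Set ι) (update y x b) =
          update (off (R : Set ι) y) x b := by
        intro b y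
        funext u
        by_cases hu : u = x
        · subst hu
          rw [off_not_mem (by simp), update_self, update_self]
        · rw [update_of_ne hu]
          by_cases hR : u ∈ R
          · rw [off_mem (by simp [hu, hR]), off_mem (by simpa using hR)]
          · rw [off_not_mem (by simp [hR]), off_not_mem (by simpa using hR), update_of_ne hu]
      simp only [e] at h1
      rw [← hP] at h1
      rw [h0, hf R, mul_zero, add_zero] at h1
      have h2 : (μ x {true}).toReal ≠ 0 :=
        ENNReal.toReal_ne_zero.2 ⟨hμ x, measure_ne_top _ _⟩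
      exact (mul_eq_zero.1 h1.symm).resolve_left h2
  have box : ∀ (I : Finset ι) (Ψ : (ι → Bool) → ℝ), Measurable Ψ → (∀ y, |Ψ y| ≤ C) →
      (∀ R : Finset ι, ∫ y, Ψ (off (R : Set ι) y) ∂P = 0) → ∀ z : ι → Bool,
      ∫ y, (cyl I z).indicator Ψ y ∂P = 0 := by
    intro I
    induction I using Finset.induction_on with
    | empty =>
      intro Ψ hΨ hC h0 z
      have := h0 ∅
      simp only [Finset.coe_empty, off_empty] at this
      refine Eq.trans ?_ this
      congr 1
      funext y
      rw [indicator_of_mem]
      intro u hu; simp at hu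
    | insert x I hx ih =>
      intro Ψ hΨ hC h0 z
      have hm := (finDep_cyl (insert x I) z).measurableSet
      have h1 := integral_resample μ x (Ψ := (cyl (insert x I) z).indicator Ψ)
        (hΨ.indicator hm) (C := C) (fun y => by
          by_cases hy : y ∈ cyl (insert x I) z
          · rw [indicator_of_mem hy]; exact hC y
          · rw [indicator_of_notMem hy]; simpa using hC0)
      have e : ∀ b : Bool, ∫ y, (cyl (insert x I) z).indicator Ψ (update y x b) ∂P = 0 := by
        intro b
        by_cases hb : b = z x
        · have := ih (fun y => Ψ (update y x b)) (hΨ.comp (measurable_upd x b)) (fun y => hC _)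
            (step Ψ hΨ hC h0 x b) z
          refine Eq.trans ?_ this
          congr 1
          funext y
          have hiff : update y x b ∈ cyl (insert x I) z ↔ y ∈ cyl I z := by
            constructor
            · intro h u hu
              have := h u (Finset.mem_insert_of_mem hu)
              rwa [update_of_ne (fun he : u = x => hx (he ▸ hu))] at this
            · intro h u hu
              rcases Finset.mem_insert.1 hu with rfl | hu
              · rw [update_self, hb]
              · rw [update_of_ne (fun he : u = x => hx (he ▸ hu))]; exact h u hu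
          by_cases hy : y ∈ cyl I z
          · rw [indicator_of_mem hy, indicator_of_mem (hiff.2 hy)]
          · rw [indicator_of_notMem hy, indicator_of_notMem (fun h => hy (hiff.1 h))]
        · have : ∀ y : ι → Bool, (cyl (insert x I) z).indicator Ψ (update y x b) = 0 := by
            intro y
            rw [indicator_of_notMem]
            intro h
            have := h x (Finset.mem_insert_self _ _)
            rw [update_self] at this
            exact hb this
          simp [this]
      rw [← hP] at h1
      rw [h1, e, e]; simp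
  have hint : Integrable Ψ P := integrable_bdd P hΨ hC
  have hcyl : ∀ t ∈ measurableCylinders (fun _ : ι => Bool), ∫ y in t, Ψ y ∂P = 0 := by
    intro t ht
    obtain ⟨s, S, -, rfl⟩ := (mem_measurableCylinders t).1 ht
    have hfin : S.Finite := Set.toFinite S
    let ext : (s → Bool) → (ι → Bool) := fun a u => if h : u ∈ s then a ⟨u, h⟩ else false
    have hU : cylinder s S = ⋃ a ∈ hfin.toFinset, cyl s (ext a) := by
      ext y
      simp only [mem_cylinder, mem_iUnion, Finite.mem_toFinset]
      constructor
      · intro hy
        refine ⟨s.restrict y, hy, fun u hu => ?_⟩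
        simp [ext, hu]
      · rintro ⟨a, ha, hy⟩
        have : s.restrict y = a := by
          funext u
          have := hy u u.2
          simpa [ext, u.2] using this
        rwa [this]
    rw [hU, integral_biUnion_finset]
    · refine Finset.sum_eq_zero fun a _ => ?_
      rw [← integral_indicator (finDep_cyl s _).measurableSet]
      exact box s Ψ hΨ hC h0 _
    · exact fun a _ => (finDep_cyl s _).measurableSet
    · intro a _ a' _ hne
      refine Set.disjoint_left.2 fun y hy hy' => hne ?_
      funext u
      have h1 := hy u u.2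
      have h2 := hy' u u.2
      simp only [ext, u.2, dif_pos] at h1 h2
      exact h1.symm.trans h2
    · exact fun a _ => hint.integrableOn
  have hall : ∀ t, MeasurableSet t → ∫ y in t, Ψ y ∂P = 0 := by
    intro t ht
    refine MeasurableSpace.induction_on_inter (C := fun t _ => ∫ y in t, Ψ y ∂P = 0)
      (generateFrom_measurableCylinders (α := fun _ : ι => Bool)).symm
      isPiSystem_measurableCylinders (by simp) (fun t ht => hcyl t ht) ?_ ?_ t ht
    · intro t ht h
      have h1 := integral_add_compl ht hint
      have h2 := hcyl univ (univ_mem_measurableCylinders _)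
      rw [Measure.restrict_univ] at h2
      linarith
    · intro f hd hm h
      rw [integral_iUnion hm hd hint.integrableOn]
      simp [h]
  exact hint.ae_eq_zero_of_forall_setIntegral_eq_zero fun t ht _ => hall t ht

end Pool.Agent.H53Z.WB
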