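import Mathlib

set_option autoImplicit false

open MeasureTheory Set Filter Topology Function TopologicalSpace ProbabilityTheory
open scoped ENNReal

namespace Pool.Agent.H53Z.WB

/-- Bockstein separation: disjoint open subsets of a power of the line are separated by a set of the
product sigma-algebra. -/
theorem bockstein {I : Type} {U V : Set (I → ℝ)} (hU : IsOpen U) (hV : IsOpen V)
    (hUV : Disjoint U V) : ∃ C : Set (I → ℝ), MeasurableSet C ∧ U ⊆ C ∧ Disjoint C V := by
  classical
  let γ : Measure (I → ℝ) := Measure.infinitePi fun _ : I => gaussianReal 0 1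
  have hpos : ∀ (s : Finset I) (u : I → Set ℝ) (z : I → ℝ),
      (∀ a ∈ s, IsOpen (u a) ∧ z a ∈ u a) → γ ((s : Set I).pi u) ≠ 0 := by
    intro s u z h
    rw [Measure.infinitePi_pi _ fun i hi => (h i hi).1.measurableSet]
    refine Finset.prod_ne_zero_iff.2 fun i hi h0 => ?_
    have := gaussianReal_absolutelyContinuous' 0 (v := 1) one_ne_zero h0
    exact ((h i hi).1.measure_pos volume ⟨_, (h i hi).2⟩).ne' this
  let 𝓑 : Set (Set (I → ℝ)) := {B | B ⊆ U ∧ ∃ (s : Finset I) (u : I → Set ℝ),
    (∀ a ∈ s, IsOpen (u a)) ∧ B = (s : Set I).pi u}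
  obtain ⟨D, hD𝓑, hDc, hD⟩ := Measure.exists_ae_subset_biUnion_countable γ (C := 𝓑) (by
    rintro B ⟨-, s, u, hu, rfl⟩
    exact .pi s.countable_toSet fun i hi => (hu i hi).measurableSet)
  have hch : ∀ B : D, ∃ (s : Finset I) (u : I → Set ℝ), B.1 = (s : Set I).pi u := by
    intro B
    obtain ⟨-, s, u, -, h⟩ := hD𝓑 B.2
    exact ⟨s, u, h⟩
  choose s u hsu using hch
  have : Countable D := hDc.to_subtype
  let J : Set I := ⋃ B : D, (s B : Set I)
  have hJ : J.Countable := countable_iUnion fun B => (s B).countable_toSet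
  have : Countable J := hJ.to_subtype
  let π : (I → ℝ) → (J → ℝ) := fun z j => z j
  have hπc : Continuous π := continuous_pi fun j => continuous_apply _
  have hπm : Measurable π := measurable_pi_lambda _ fun j => measurable_pi_apply _
  refine ⟨π ⁻¹' closure (π '' ⋃₀ D), hπm isClosed_closure.measurableSet, ?_, ?_⟩
  · intro z hz
    by_contra hc
    have ho : IsOpen (U ∩ π ⁻¹' (closure (π '' ⋃₀ D))ᶜ) :=
      hU.inter (isClosed_closure.isOpen_compl.preimage hπc)
    obtain ⟨s0, u0, h1, h2⟩ := isOpen_pi_iff.1 ho z ⟨hz, hc⟩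
    have hB : (s0 : Set I).pi u0 ∈ 𝓑 :=
      ⟨fun w hw => (h2 hw).1, s0, u0, fun a ha => (h1 a ha).1, rfl⟩
    apply hpos s0 u0 z h1
    have h3 := hD _ hB
    rw [ae_le_set] at h3
    refine measure_mono_null (fun w hw => ?_) h3
    exact ⟨hw, fun hw' => (h2 hw).2 (subset_closure ⟨w, hw', rfl⟩)⟩
  · refine Set.disjoint_left.2 fun z hz hzV => ?_
    obtain ⟨s0, u0, h1, h2⟩ := isOpen_pi_iff.1 hV z hzV
    let O : Set (J → ℝ) := ⋂ a ∈ s0, {w | ∀ h : a ∈ J, w ⟨a, h⟩ ∈ u0 a}
    have hO : IsOpen O := by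
      refine isOpen_biInter_finset fun a ha => ?_
      by_cases h : a ∈ J
      · have : {w : J → ℝ | ∀ h : a ∈ J, w ⟨a, h⟩ ∈ u0 a} = (fun w => w ⟨a, h⟩) ⁻¹' u0 a := by
          ext w; simp [h]
        rw [this]
        exact (h1 a ha).1.preimage (continuous_apply _)
      · have : {w : J → ℝ | ∀ h : a ∈ J, w ⟨a, h⟩ ∈ u0 a} = univ := by
          ext w; simp [h]
        rw [this]; exact isOpen_univ
    have hzO : π z ∈ O := mem_iInter₂.2 fun a ha _ => (h1 a ha).2
    obtain ⟨w, hwO, v, ⟨B, hBD, hvB⟩, rfl⟩ := mem_closure_iff.1 hz O hO hzO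
    let v' : I → ℝ := fun i => if i ∈ J then v i else z i
    have hv'V : v' ∈ V := by
      apply h2
      intro a ha
      by_cases h : a ∈ J
      · have := mem_iInter₂.1 hwO a ha h
        simpa [v', h] using this
      · simpa [v', h] using (h1 a ha).2
    have hv'U : v' ∈ U := by
      apply (hD𝓑 hBD).1
      have e := hsu ⟨B, hBD⟩
      simp only at e
      rw [e] at hvB ⊢
      intro a ha
      have h : a ∈ J := mem_iUnion.2 ⟨⟨B, hBD⟩, ha⟩
      simpa [v', h] using hvB a ha
    exact Set.disjoint_left.1 hUV hv'U hv'V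

/-- Edgar: a weakly continuous real function on a normed space is measurable for the sigma-algebra
generated by the continuous linear functionals. -/
theorem edgar {E : Type} [NormedAddCommGroup E] [NormedSpace ℝ E] {g : E → ℝ}
    (hg : Continuous fun x : WeakSpace ℝ E => g ((toWeakSpace ℝ E).symm x)) :
    Measurable[⨆ φ : StrongDual ℝ E, MeasurableSpace.comap φ (borel ℝ), borel ℝ] g := by
  classical
  let b := Module.Basis.ofVectorSpace ℝ (StrongDual ℝ E)
  set I := Module.Basis.ofVectorSpaceIndex ℝ (StrongDual ℝ E) with hI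
  let T : E → (I → ℝ) := fun x i => b i x
  have hdense : DenseRange T := by
    rw [DenseRange, dense_iff_inter_open]
    rintro O hO ⟨z, hz⟩
    obtain ⟨s, u, h1, h2⟩ := isOpen_pi_iff.1 hO z hz
    have hli : LinearIndependent ℝ (fun i : s => (fun x : E => b i x)) := by
      have h3 : LinearIndependent ℝ (fun i : s => b i) :=
        b.linearIndependent.comp _ Subtype.val_injective
      let c : StrongDual ℝ E →ₗ[ℝ] (E → ℝ) :=
        { toFun := fun φ x => φ x
          map_add' := fun _ _ => rfl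
          map_smul' := fun _ _ => rfl }
      exact h3.map' c (LinearMap.ker_eq_bot.2 fun φ ψ h => by
        ext x; exact congrFun h x)
    have hsp := span_flip_eq_top_iff_linearIndependent.2 hli
    let L : E →ₗ[ℝ] (s → ℝ) :=
      { toFun := fun x i => b i x
        map_add' := fun x y => by funext i; simp
        map_smul' := fun c x => by funext i; simp }
    have hr : range (flip (fun i : s => (fun x : E => b i x))) = (LinearMap.range L : Set (s → ℝ)) := by
      ext w; simp only [mem_range, SetLike.mem_coe, LinearMap.mem_range]; rfl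
    rw [hr, Submodule.span_eq] at hsp
    have : (fun i : s => z i) ∈ LinearMap.range L := by rw [hsp]; trivial
    obtain ⟨x, hx⟩ := this
    refine ⟨T x, h2 fun a ha => ?_, x, rfl⟩
    have : T x a = z a := congrFun hx ⟨a, ha⟩
    rw [this]; exact (h1 a ha).2
  have hopen : ∀ O : Set ℝ, IsOpen O → ∃ U : Set (I → ℝ), IsOpen U ∧ T ⁻¹' U = g ⁻¹' O := by
    intro O hO
    let Λ : (I → ℝ) → (StrongDual ℝ E → ℝ) :=
      fun w φ => ∑ i ∈ (b.repr φ).support, b.repr φ i * w i
    have hΛ : Continuous Λ := continuous_pi fun φ =>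
      continuous_finsetSum _ fun i _ => continuous_const.mul (continuous_apply i)
    have e : ∀ x : E, Λ (T x) = fun φ : StrongDual ℝ E => φ x := by
      intro x
      funext φ
      symm
      conv_lhs => rw [← b.linearCombination_repr φ]
      rw [Finsupp.linearCombination_apply, Finsupp.sum, ContinuousLinearMap.sum_apply]
      rfl
    obtain ⟨O', hO', he⟩ := isOpen_induced_iff.1 (hO.preimage hg)
    refine ⟨Λ ⁻¹' O', hO'.preimage hΛ, ?_⟩
    ext x
    have := Set.ext_iff.1 he (toWeakSpace ℝ E x)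
    simp only [mem_preimage, e] at this ⊢
    exact this
  set m : MeasurableSpace E := ⨆ φ : StrongDual ℝ E, MeasurableSpace.comap φ (borel ℝ) with hm
  have hTm : Measurable[m] T := by
    refine @measurable_pi_lambda E I (fun _ => ℝ) m _ T fun i => ?_
    intro t ht
    have : MeasurableSpace.comap (b i) (borel ℝ) ≤ m := le_iSup
      (fun φ : StrongDual ℝ E => MeasurableSpace.comap φ (borel ℝ)) (b i)
    exact this _ ⟨t, ht, rfl⟩
  have hsep : ∀ q : ℝ, ∃ C : Set E, MeasurableSet[m] C ∧ (∀ x, g x < q → x ∈ C) ∧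
      ∀ x ∈ C, g x ≤ q := by
    intro q
    obtain ⟨U, hU, hUe⟩ := hopen _ (isOpen_Iio (a := q))
    obtain ⟨V, hV, hVe⟩ := hopen _ (isOpen_Ioi (a := q))
    have hUV : Disjoint U V := by
      rw [Set.disjoint_iff_inter_eq_empty]
      by_contra hne
      obtain ⟨x, hx⟩ := hdense.exists_mem_open (hU.inter hV) (nonempty_iff_ne_empty.2 hne)
      have h1 : x ∈ g ⁻¹' Iio q := hUe ▸ hx.1
      have h2 : x ∈ g ⁻¹' Ioi q := hVe ▸ hx.2
      exact lt_asymm (show g x < q from h1) (show q < g x from h2)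
    obtain ⟨C, hC, h1, h2⟩ := bockstein hU hV hUV
    refine ⟨T ⁻¹' C, hTm hC, fun x hx => h1 ?_, fun x hx => ?_⟩
    · have : x ∈ T ⁻¹' U := by rw [hUe]; exact hx
      exact this
    · by_contra hc
      have : x ∈ T ⁻¹' V := by rw [hVe]; exact not_le.1 hc
      exact Set.disjoint_left.1 h2 hx this
  choose C hC h1 h2 using hsep
  refine measurable_of_Iio (mδ := m) fun a => ?_
  have : g ⁻¹' Iio a = ⋃ q : ℚ, ⋃ _ : (q : ℝ) < a, C q := by
    ext x
    simp only [mem_preimage, mem_Iio, mem_iUnion]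
    constructor
    · intro h
      obtain ⟨q, hq1, hq2⟩ := exists_rat_btwn h
      exact ⟨q, hq2, h1 q x hq1⟩
    · rintro ⟨q, hq, hx⟩
      exact (h2 q x hx).trans_lt hq
  rw [this]
  exact MeasurableSet.iUnion fun q => MeasurableSet.iUnion fun _ => hC q

end Pool.Agent.H53Z.WB
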