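import Mathlib
import Pool.Agent.H516Z.CKDP
import Pool.Agent.Helper882.Dirac.Represent

set_option autoImplicit false

open MeasureTheory Set Filter Topology Function TopologicalSpace
open scoped ENNReal

namespace Pool.Agent.H53Z.WB

/-- a functional on `C(X)` bounded by the norm of the restriction descends to `C(K)` -/
theorem exists_descend {X : Type} [TopologicalSpace X] [CompactSpace X] [T2Space X] {K : Set X}
    (hK : IsClosed K) [CompactSpace K] (Λ : C(X, ℝ) →ₗ[ℝ] ℝ)
    (h : ∀ g : C(X, ℝ), |Λ g| ≤ ‖g.restrict K‖) :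
    ∃ φ : StrongDual ℝ C(K, ℝ), ∀ g : C(X, ℝ), φ (g.restrict K) = Λ g := by
  have hext : ∀ f : C(K, ℝ), ∃ g : C(X, ℝ), g.restrict K = f :=
    fun f => ContinuousMap.exists_restrict_eq hK f
  choose ext hext using hext
  have hwd : ∀ g g' : C(X, ℝ), g.restrict K = g'.restrict K → Λ g = Λ g' := by
    intro g g' he
    have h1 := h (g - g')
    have h2 : (g - g').restrict K = 0 := by
      ext x
      have := congrArg (fun u : C(K, ℝ) => u x) he
      simp only [ContinuousMap.restrict_apply] at this
      simp [this]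
    rw [h2, norm_zero, map_sub] at h1
    have := abs_nonpos_iff.1 h1
    linarith
  let L : C(K, ℝ) →ₗ[ℝ] ℝ :=
    { toFun := fun f => Λ (ext f)
      map_add' := fun f f' => by
        rw [← map_add]
        apply hwd
        ext x
        have h1 := congrArg (fun u : C(K, ℝ) => u x) (hext f)
        have h2 := congrArg (fun u : C(K, ℝ) => u x) (hext f')
        have h3 := congrArg (fun u : C(K, ℝ) => u x) (hext (f + f'))
        simp only [ContinuousMap.restrict_apply, ContinuousMap.add_apply] at h1 h2 h3 ⊢
        rw [h1, h2, h3]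
      map_smul' := fun c f => by
        rw [RingHom.id_apply, ← map_smul]
        apply hwd
        ext x
        have h1 := congrArg (fun u : C(K, ℝ) => u x) (hext f)
        have h3 := congrArg (fun u : C(K, ℝ) => u x) (hext (c • f))
        simp only [ContinuousMap.restrict_apply, ContinuousMap.smul_apply] at h1 h3 ⊢
        rw [h1, h3] }
  refine ⟨L.mkContinuous 1 fun f => ?_, fun g => hwd _ _ (hext _)⟩
  have := h (ext f)
  rw [hext] at this
  rw [one_mul]
  exact this

/-- a bounded functional on `C(K)`, `K` a compact subset of a Cantor cube, is a difference of two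
finite measures on the product sigma-algebra that only see `K` -/
theorem exists_two_measures {ι : Type} {K : Set (ι → Bool)} [CompactSpace K]
    (φ : StrongDual ℝ C(K, ℝ)) :
    ∃ ν : Bool → Measure (ι → Bool), (∀ b, IsFiniteMeasure (ν b)) ∧
      (∀ b, ∀ g : C(ι → Bool, ℝ), g.restrict K = 0 → ∫ z, g z ∂(ν b) = 0) ∧
      ∀ g : C(ι → Bool, ℝ), φ (g.restrict K) = ∫ z, g z ∂(ν true) - ∫ z, g z ∂(ν false) := by
  obtain ⟨m, hm, -, hdom⟩ := Pool.Agent.H516Z.CKX.exists_dom φ
  have hb : ∀ f : C(K, ℝ), |m f| ≤ m 1 * ‖f‖ := by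
    intro f
    have h1 : m f ≤ m (‖f‖ • 1) := hm.mono fun y => by
      simpa using (le_abs_self _).trans (f.norm_coe_le_norm y)
    have h2 : m (-(‖f‖ • 1)) ≤ m f := hm.mono fun y => by
      have := f.norm_coe_le_norm y
      rw [Real.norm_eq_abs, abs_le] at this
      simpa using this.1
    rw [map_neg] at h2
    rw [map_smul, smul_eq_mul] at h1 h2
    rw [abs_le]
    constructor <;> linarith
  let mc : StrongDual ℝ C(K, ℝ) := m.mkContinuous (m 1) hb
  let res : C(ι → Bool, ℝ) →L[ℝ] C(K, ℝ) :=
    LinearMap.mkContinuous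
      { toFun := fun g => g.restrict K
        map_add' := fun _ _ => rfl
        map_smul' := fun _ _ => rfl } 1 fun g => by
        rw [one_mul]
        exact (ContinuousMap.norm_le _ (norm_nonneg g)).2 fun y => g.norm_coe_le_norm y.1
  have hres : ∀ g, res g = g.restrict K := fun g => rfl
  obtain ⟨ν₁, h₁, e₁⟩ := Pool.Agent.Helper882.Dirac.exists_measure_of_pos ι
    ((mc + φ).comp res) (fun g hg => by
      have := hdom (-(res g)) (res g) fun y => by
        have : 0 ≤ res g y := hg y.1
        simp [abs_of_nonneg this]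
      rw [map_neg] at this
      change 0 ≤ m (res g) + φ (res g)
      linarith)
  obtain ⟨ν₂, h₂, e₂⟩ := Pool.Agent.Helper882.Dirac.exists_measure_of_pos ι
    (mc.comp res) (fun g hg => hm _ fun y => hg y.1)
  refine ⟨fun b => if b then ν₁ else ν₂, ?_, ?_, ?_⟩
  · intro b; cases b
    · exact h₂
    · exact h₁
  · intro b g hg
    cases b
    · change ∫ z, g z ∂ν₂ = 0
      rw [← e₂]
      change mc (res g) = 0
      rw [hres, hg, map_zero]
    · change ∫ z, g z ∂ν₁ = 0
      rw [← e₁]
      change (mc + φ) (res g) = 0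
      rw [hres, hg, map_zero]
  · intro g
    change _ = ∫ z, g z ∂ν₁ - ∫ z, g z ∂ν₂
    rw [← e₁, ← e₂]
    change φ (res g) = (mc (res g) + φ (res g)) - mc (res g)
    ring

/-- a countable total family of functionals gives weak* separability of the dual -/
theorem separable_of_total {E : Type} [NormedAddCommGroup E] [NormedSpace ℝ E] {κ : Type}
    [Countable κ] (φ : κ → StrongDual ℝ E) (h : ∀ x : E, (∀ k, φ k x = 0) → x = 0) :
    SeparableSpace (WeakDual ℝ E) := by
  let ψ : κ → WeakDual ℝ E := fun k => StrongDual.toWeakDual (φ k)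
  have hsep : IsSeparable (Submodule.span ℝ (range ψ) : Set (WeakDual ℝ E)) :=
    (countable_range ψ).isSeparable.span
  have hd : closure (Submodule.span ℝ (range ψ) : Set (WeakDual ℝ E)) = univ := by
    by_contra hne
    obtain ⟨w, hw⟩ := (ne_univ_iff_exists_notMem _).1 hne
    have : LocallyConvexSpace ℝ (WeakDual ℝ E) :=
      WeakBilin.locallyConvexSpace (B := topDualPairing ℝ E)
    obtain ⟨f, u, hf1, hf2⟩ := geometric_hahn_banach_point_closed
      (Submodule.span ℝ (range ψ)).convex.closure isClosed_closure hw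
    obtain ⟨x, hx⟩ := LinearMap.dualEmbedding_surjective (topDualPairing ℝ E) f
    have hfx : ∀ v : WeakDual ℝ E, f v = v x := fun v => by rw [← hx]; rfl
    have h0 : u < 0 := by
      have := hf2 0 (subset_closure (Submodule.zero_mem _))
      simpa using this
    have hk : ∀ k, φ k x = 0 := by
      intro k
      by_contra hc
      have hmem : ((u - 1) / φ k x) • ψ k ∈ closure
          (Submodule.span ℝ (range ψ) : Set (WeakDual ℝ E)) :=
        subset_closure (Submodule.smul_mem _ _ (Submodule.subset_span ⟨k, rfl⟩))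
      have h1 := hf2 _ hmem
      rw [map_smul, hfx, smul_eq_mul] at h1
      have h2 : (ψ k) x = φ k x := rfl
      rw [h2, div_mul_cancel₀ _ hc] at h1
      linarith
    have hx0 := h x hk
    rw [hfx, hx0, map_zero] at hf1
    linarith
  rw [← isSeparable_univ_iff, ← hd]
  exact hsep.closure

/-- a set in a supremum of sigma-algebras lies in a countable subsupremum -/
theorem exists_countable_iSup {α κ : Type} (m : κ → MeasurableSpace α) {A : Set α}
    (hA : MeasurableSet[⨆ k, m k] A) :
    ∃ J : Set κ, J.Countable ∧ MeasurableSet[⨆ k ∈ J, m k] A := by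
  rw [MeasurableSpace.measurableSet_iSup] at hA
  induction hA with
  | basic u hu =>
    obtain ⟨k, hk⟩ := hu
    refine ⟨{k}, countable_singleton k, ?_⟩
    have : m k ≤ ⨆ j ∈ ({k} : Set κ), m j := le_iSup₂_of_le k (mem_singleton k) le_rfl
    exact this u hk
  | empty => exact ⟨∅, countable_empty, @MeasurableSet.empty _ (_)⟩
  | compl t _ ih =>
    obtain ⟨J, hJ, h⟩ := ih
    exact ⟨J, hJ, h.compl⟩
  | iUnion t _ ih =>
    choose J hJ h using ih
    refine ⟨⋃ n, J n, countable_iUnion hJ, MeasurableSet.iUnion fun n => ?_⟩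
    have : (⨆ k ∈ J n, m k) ≤ ⨆ k ∈ ⋃ n, J n, m k :=
      biSup_mono fun k hk => mem_iUnion.2 ⟨n, hk⟩
    exact this _ (h n)

end Pool.Agent.H53Z.WB
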