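import Mathlib
import Pool.Agent.H53Z.WB.Coin

set_option autoImplicit false

open MeasureTheory Set Filter Topology Function Cardinal
open scoped ENNReal

namespace Pool.Agent.H53Z.WB

/-- codes of clopen subsets of the Cantor set -/
abbrev Cl : Type := Σ L : ℕ, Set (Fin L → Bool)

/-- the clopen set with a given code -/
def Cl.set (c : Cl) : Set (ℕ → Bool) := {w | (fun i : Fin c.1 => w i) ∈ c.2}

theorem Cl.measurableSet_set (c : Cl) : MeasurableSet c.set := by
  have : Measurable (fun w : ℕ → Bool => fun i : Fin c.1 => w i) :=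
    measurable_pi_lambda _ fun i => measurable_pi_apply _
  exact this (Set.toFinite _).measurableSet

/-- measurable subsets of the Cantor set -/
abbrev MS : Type := {s : Set (ℕ → Bool) // MeasurableSet s}

/-- data attached to a generator -/
abbrev Dat : Type := (ℕ → Cl) × MS × ℝ

/-- the generators -/
inductive T : Type
  | leaf : T
  | node : (ℕ → T) → Dat → T

/-- the labelled tree of a generator -/
def enc : T → List ℕ → Option Dat
  | T.leaf => fun _ => none
  | T.node f d => fun l => match l with
    | [] => some d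
    | i :: l' => enc (f i) l'

theorem enc_injective : Injective enc := by
  intro x
  induction x with
  | leaf =>
    intro y h
    cases y with
    | leaf => rfl
    | node f d =>
      have := congrFun h []
      simp [enc] at this
  | node f d ih =>
    intro y h
    cases y with
    | leaf =>
      have := congrFun h []
      simp [enc] at this
    | node f' d' =>
      have h1 : d = d' := by
        have := congrFun h []
        simpa [enc] using this
      have h2 : f = f' := by
        funext i
        apply ih i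
        funext l
        have := congrFun h (i :: l)
        simpa [enc] using this
      rw [h1, h2]

theorem mk_MS : #MS ≤ 𝔠 := by
  have h := MeasurableSpace.cardinal_measurableSet_le_continuum
    (s := MeasurableSpace.countableGeneratingSet (ℕ → Bool))
    ((MeasurableSpace.countable_countableGeneratingSet.le_aleph0).trans aleph0_le_continuum)
  rw [MeasurableSpace.generateFrom_countableGeneratingSet] at h
  exact h

theorem mk_Dat : #Dat ≤ 𝔠 := by
  have h1 : #(ℕ → Cl) ≤ 𝔠 := by
    rw [mk_arrow]
    simp only [lift_id, mk_nat]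
    calc #Cl ^ ℵ₀ ≤ 𝔠 ^ ℵ₀ :=
          power_le_power_right (mk_le_aleph0.trans aleph0_le_continuum)
      _ = 𝔠 := continuum_power_aleph0
  simp only [Dat, mk_prod, lift_id, mk_real]
  calc #(ℕ → Cl) * (#MS * 𝔠) ≤ 𝔠 * (𝔠 * 𝔠) := by gcongr; exact mk_MS
    _ = 𝔠 := by simp

theorem exists_code : ∃ ω : T → (ℕ → Bool), Injective ω := by
  have h1 : #T ≤ #(List ℕ → Option Dat) := mk_le_of_injective enc_injective
  have h2 : #(List ℕ → Option Dat) ≤ 𝔠 := by
    rw [mk_arrow]
    simp only [lift_id, mk_option]
    have h3 : #Dat + 1 ≤ 𝔠 :=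
      add_le_of_le aleph0_le_continuum mk_Dat (one_le_aleph0.trans aleph0_le_continuum)
    calc (#Dat + 1) ^ #(List ℕ) ≤ 𝔠 ^ #(List ℕ) := power_le_power_right h3
      _ ≤ 𝔠 ^ ℵ₀ := power_le_power_left continuum_ne_zero mk_le_aleph0
      _ = 𝔠 := continuum_power_aleph0
  have h4 : #(ℕ → Bool) = 𝔠 := by simp
  have : #T ≤ #(ℕ → Bool) := by rw [h4]; exact h1.trans h2
  obtain ⟨e⟩ := (Cardinal.le_def _ _).1 this
  exact ⟨e, e.injective⟩

/-- an injective code of the generators in the Cantor set -/
noncomputable def code : T → (ℕ → Bool) := exists_code.choose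

theorem code_injective : Injective code := exists_code.choose_spec

/-- the generators with a rare coin -/
def Rare : T → Prop
  | T.leaf => False
  | T.node f d => code (T.node f d) ∈ d.2.1.1

/-- the coin with probabilities `a` and `b` -/
noncomputable def bern (a b : ℝ≥0∞) : Measure Bool := a • Measure.dirac true + b • Measure.dirac false

theorem bern_true (a b : ℝ≥0∞) : bern a b {true} = a := by simp [bern]

theorem bern_false (a b : ℝ≥0∞) : bern a b {false} = b := by simp [bern]

theorem third : (3⁻¹ : ℝ≥0∞) + 2 * 3⁻¹ = 1 := by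
  have : (3⁻¹ : ℝ≥0∞) + 2 * 3⁻¹ = 3 * 3⁻¹ := by ring
  rw [this, ENNReal.mul_inv_cancel (by norm_num) (by norm_num)]

open Classical in
/-- the law of the coin of a generator -/
noncomputable def coin (x : T) : Measure Bool :=
  if Rare x then bern 3⁻¹ (2 * 3⁻¹) else bern (2 * 3⁻¹) 3⁻¹

instance (x : T) : IsProbabilityMeasure (coin x) := by
  constructor
  unfold coin
  split_ifs
  · simpa [bern] using third
  · simpa [bern, add_comm] using third

theorem coin_false (x : T) : 3⁻¹ ≤ coin x {false} := by
  unfold coin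
  split_ifs
  · rw [bern_false, two_mul]; exact le_self_add
  · rw [bern_false]

theorem coin_true_rare {x : T} (h : Rare x) : coin x {true} = 3⁻¹ := by
  unfold coin; rw [if_pos h, bern_true]

theorem coin_true_not_rare {x : T} (h : ¬ Rare x) : coin x {true} = 2 * 3⁻¹ := by
  unfold coin; rw [if_neg h, bern_true]

theorem coin_true_ne (x : T) : coin x {true} ≠ 0 := by
  by_cases h : Rare x
  · rw [coin_true_rare h]; simp
  · rw [coin_true_not_rare h]; simp

/-- the product of all coins -/
noncomputable def P : Measure (T → Bool) := Measure.infinitePi coin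

instance : IsProbabilityMeasure P := by unfold P; infer_instance

/-- a piece is a branch with a finite or infinite depth -/
abbrev Pc : Type := (ℕ → Bool) × ℕ∞

/-- generators whose code lies in the piece -/
def pc (p : Pc) : Set T := {x | ∀ i : ℕ, (i : ℕ∞) < p.2 → code x i = p.1 i}

/-- generators whose code lies in one of finitely many pieces -/
def WS (s : Finset Pc) : Set T := {x | ∃ p ∈ s, x ∈ pc p}

/-- generators whose code lies in a clopen set -/
def V (c : Cl) : Set T := {x | code x ∈ c.set}

/-- error budget -/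
noncomputable def eps (n : ℕ) : ℝ≥0∞ := 2⁻¹ ^ (n + 2)

/-- robustness of a sequence of forbidden patterns -/
def Good (ζ : ℕ → (T → Bool) → Bool) (Q : ℕ → Cl) : Prop :=
  ∀ (n : ℕ) (s : Finset Pc), s.card ≤ n →
    P {y | (fun i => ζ i (off (WS s) y)) ∈ (Q n).set} ≤ eps n

open Classical in
/-- activity of a generator as a function of the coins -/
noncomputable def Z : T → (T → Bool) → Bool
  | T.leaf => fun _ => false
  | T.node f d => fun y => decide (y (T.node f d) = true ∧ Good (fun i => Z (f i)) d.1 ∧
      ∀ n, (fun i => Z (f i) y) ∉ (d.1 n).set)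

theorem Z_leaf (y : T → Bool) : Z T.leaf y = false := by simp [Z]

theorem Z_node (f : ℕ → T) (d : Dat) (y : T → Bool) : Z (T.node f d) y = true ↔
    y (T.node f d) = true ∧ Good (fun i => Z (f i)) d.1 ∧
      ∀ n, (fun i => Z (f i) y) ∉ (d.1 n).set := by
  simp [Z]

theorem measurable_Z (x : T) : Measurable (Z x) := by
  induction x with
  | leaf =>
    have : Z T.leaf = fun _ => false := funext Z_leaf
    rw [this]; exact measurable_const
  | node f d ih =>
    refine measurable_to_bool ?_
    have hm : Measurable fun (y : T → Bool) (i : ℕ) => Z (f i) y := measurable_pi_lambda _ ih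
    have : Z (T.node f d) ⁻¹' {true} = (fun y : T → Bool => y (T.node f d)) ⁻¹' {true} ∩
        ({_y | Good (fun i => Z (f i)) d.1} ∩
          ⋂ n, ((fun (y : T → Bool) (i : ℕ) => Z (f i) y) ⁻¹' (d.1 n).set)ᶜ) := by
      ext y
      simp only [mem_preimage, mem_singleton_iff, Z_node, mem_inter_iff, mem_ofPred_eq, mem_iInter,
        mem_compl_iff]
    rw [this]
    refine (measurable_pi_apply _ (measurableSet_singleton _)).inter
      ((MeasurableSet.const _).inter (MeasurableSet.iInter fun n => ?_))
    exact (hm (d.1 n).measurableSet_set).compl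

/-- the activity pattern after switching off the coins in `W` -/
noncomputable def Zm (W : Set T) (y : T → Bool) : T → Bool := fun x => Z x (off W y)

theorem measurable_Zm (W : Set T) : Measurable (Zm W) :=
  measurable_pi_lambda _ fun x => (measurable_Z x).comp (measurable_off W)

/-- the law of the activity pattern -/
noncomputable def mu (W : Set T) : Measure (T → Bool) := P.map (Zm W)

instance (W : Set T) : IsProbabilityMeasure (mu W) :=
  Measure.isProbabilityMeasure_map (measurable_Zm W).aemeasurable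

theorem mu_apply (W : Set T) {A : Set (T → Bool)} (hA : MeasurableSet A) :
    mu W A = P (Zm W ⁻¹' A) := Measure.map_apply (measurable_Zm W) hA

theorem tail_eps (m : ℕ) : ∑' j, eps (j + m) = 2⁻¹ ^ (m + 1) := by
  have : ∀ j, eps (j + m) = 2⁻¹ ^ (m + 2) * 2⁻¹ ^ j := fun j => by
    unfold eps; rw [← pow_add]; congr 1; ring
  simp only [this]
  rw [ENNReal.tsum_mul_left, ENNReal.tsum_geometric, ENNReal.one_sub_inv_two, inv_inv, pow_succ,
    mul_assoc, ENNReal.inv_mul_cancel (by norm_num) (by norm_num), mul_one]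

/-- uniform finite dependence of a finite set of activities -/
def UFD (Γ₀ : Finset T) : Prop :=
  ∀ (n : ℕ) (ε : ℝ≥0∞), 0 < ε → ∃ Γ : Finset T, ∀ s s' : Finset Pc, s.card ≤ n → s'.card ≤ n →
    (∀ u ∈ Γ, u ∈ WS s ↔ u ∈ WS s') →
      P {y | ∃ x ∈ Γ₀, Zm (WS s) y x ≠ Zm (WS s') y x} ≤ ε

theorem ufd_of_singletons (Γ₀ : Finset T) (h : ∀ x ∈ Γ₀, UFD {x}) : UFD Γ₀ := by
  classical
  induction Γ₀ using Finset.induction_on with
  | empty => intro n ε _; exact ⟨∅, fun s s' _ _ _ => by simp⟩
  | insert x Γ₀ _ ih =>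
    intro n ε hε
    have hε2 : 0 < ε / 2 := ENNReal.half_pos hε.ne'
    obtain ⟨Γ₁, h₁⟩ := h x (Finset.mem_insert_self _ _) n _ hε2
    obtain ⟨Γ₂, h₂⟩ := ih (fun u hu => h u (Finset.mem_insert_of_mem hu)) n _ hε2
    refine ⟨Γ₁ ∪ Γ₂, fun s s' hs hs' hag => ?_⟩
    have e1 := h₁ s s' hs hs' fun u hu => hag u (Finset.mem_union_left _ hu)
    have e2 := h₂ s s' hs hs' fun u hu => hag u (Finset.mem_union_right _ hu)
    calc P {y | ∃ u ∈ insert x Γ₀, Zm (WS s) y u ≠ Zm (WS s') y u}
        ≤ P ({y | ∃ u ∈ ({x} : Finset T), Zm (WS s) y u ≠ Zm (WS s') y u} ∪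
            {y | ∃ u ∈ Γ₀, Zm (WS s) y u ≠ Zm (WS s') y u}) := by
          refine measure_mono ?_
          rintro y ⟨u, hu, hne⟩
          rcases Finset.mem_insert.1 hu with rfl | hu
          · exact Or.inl ⟨u, Finset.mem_singleton_self _, hne⟩
          · exact Or.inr ⟨u, hu, hne⟩
      _ ≤ ε / 2 + ε / 2 := (measure_union_le _ _).trans (add_le_add e1 e2)
      _ = ε := ENNReal.add_halves ε

theorem ufd_single (x : T) : UFD {x} := by
  classical
  induction x with
  | leaf =>
    intro n ε _
    refine ⟨∅, fun s s' _ _ _ => ?_⟩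
    simp [Zm, Z_leaf]
  | node f d ih =>
    intro n ε hε
    by_cases hg : Good (fun i => Z (f i)) d.1
    swap
    · refine ⟨∅, fun s s' _ _ _ => ?_⟩
      have : ∀ y, Z (T.node f d) y = false := by
        intro y
        rw [← Bool.not_eq_true, Z_node]
        exact fun h => hg h.2.1
      simp [Zm, this]
    have hε2 : 0 < ε / 2 := ENNReal.half_pos hε.ne'
    obtain ⟨m₀, hm₀⟩ := ENNReal.exists_inv_two_pow_lt hε2.ne'
    let m := max m₀ n
    have hm : (2⁻¹ : ℝ≥0∞) ^ m ≤ ε / 2 :=
      (pow_le_pow_of_le_one (by simp) (by simp) (le_max_left _ _)).trans hm₀.le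
    let L := (Finset.range m).sup fun j => (d.1 j).1
    obtain ⟨Γ, hΓ⟩ := ufd_of_singletons ((Finset.range L).image f)
      (fun x hx => by
        obtain ⟨i, -, rfl⟩ := Finset.mem_image.1 hx
        exact ih i) n _ hε2
    refine ⟨insert (T.node f d) Γ, fun s s' hs hs' hag => ?_⟩
    have e1 := hΓ s s' hs hs' fun u hu => hag u (Finset.mem_insert_of_mem hu)
    let A : Finset Pc → ℕ → Set (T → Bool) := fun s j =>
      {y | (fun i => Z (f i) (off (WS s) y)) ∈ (d.1 (j + m)).set}
    have eA : ∀ s : Finset Pc, s.card ≤ n → P (⋃ j, A s j) ≤ 2⁻¹ ^ (m + 1) := by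
      intro s hs
      rw [← tail_eps]
      refine (measure_iUnion_le _).trans (ENNReal.tsum_le_tsum fun j => ?_)
      exact hg (j + m) s (hs.trans ((le_max_right _ _).trans (Nat.le_add_left _ _)))
    have hcoin : ∀ y, off (WS s) y (T.node f d) = off (WS s') y (T.node f d) := by
      intro y
      have := hag _ (Finset.mem_insert_self _ _)
      by_cases h : T.node f d ∈ WS s
      · rw [off_mem h, off_mem (this.1 h)]
      · rw [off_not_mem h, off_not_mem (fun h' => h (this.2 h'))]
    calc P {y | ∃ x ∈ ({T.node f d} : Finset T), Zm (WS s) y x ≠ Zm (WS s') y x}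
        ≤ P ({y | ∃ x ∈ (Finset.range L).image f, Zm (WS s) y x ≠ Zm (WS s') y x} ∪
            ((⋃ j, A s j) ∪ ⋃ j, A s' j)) := by
          refine measure_mono ?_
          rintro y ⟨x, hx, hne⟩
          rw [Finset.mem_singleton] at hx
          subst hx
          by_contra hc
          simp only [mem_union, mem_ofPred_eq, mem_iUnion, not_or, not_exists, not_and,
            not_not] at hc
          obtain ⟨h1, h2, h3⟩ := hc
          apply hne
          have key : ∀ j, (fun i => Z (f i) (off (WS s) y)) ∈ (d.1 j).set ↔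
              (fun i => Z (f i) (off (WS s') y)) ∈ (d.1 j).set := by
            intro j
            by_cases hj : j < m
            · have : (fun i : Fin (d.1 j).1 => Z (f i) (off (WS s) y)) =
                  fun i : Fin (d.1 j).1 => Z (f i) (off (WS s') y) := by
                funext i
                refine h1 (f i) (Finset.mem_image.2 ⟨i, Finset.mem_range.2 ?_, rfl⟩)
                exact i.2.trans_le (Finset.le_sup (f := fun j => (d.1 j).1) (Finset.mem_range.2 hj))
              simp only [Cl.set, mem_ofPred_eq, this]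
            · obtain ⟨k, rfl⟩ : ∃ k, j = k + m := ⟨j - m, by omega⟩
              exact iff_of_false (h2 k) (h3 k)
          rw [Bool.eq_iff_iff]
          simp only [Zm, Z_node, hcoin, key]
      _ ≤ ε / 2 + (2⁻¹ ^ (m + 1) + 2⁻¹ ^ (m + 1)) :=
          (measure_union_le _ _).trans (add_le_add e1
            ((measure_union_le _ _).trans (add_le_add (eA s hs) (eA s' hs'))))
      _ = ε / 2 + 2⁻¹ ^ m := by
          rw [pow_succ, ← mul_add, ENNReal.inv_two_add_inv_two, mul_one]
      _ ≤ ε / 2 + ε / 2 := by gcongr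
      _ = ε := ENNReal.add_halves ε

theorem ufd (Γ₀ : Finset T) : UFD Γ₀ := ufd_of_singletons Γ₀ fun x _ => ufd_single x

theorem mu_union_le (W : Set T) (R : Finset T) {A : Set (T → Bool)} (hA : MeasurableSet A) :
    mu (W ∪ R) A ≤ 3 ^ R.card * mu W A := by
  rw [mu_apply _ hA, mu_apply _ hA]
  have : Zm (W ∪ R) ⁻¹' A = off (R : Set T) ⁻¹' (Zm W ⁻¹' A) := by
    ext y
    simp only [mem_preimage]
    have : Zm (W ∪ R) y = Zm W (off (R : Set T) y) := by
      funext x; simp only [Zm, off_off]
    rw [this]
  rw [this]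
  exact off_le coin coin_false R (measurable_Zm W hA)

theorem WS_eq_V (s : Finset Pc) (d : ℕ) (h : ∀ p ∈ s, p.2 ≤ d) :
    ∃ A : Set (Fin d → Bool), WS s = V ⟨d, A⟩ := by
  refine ⟨{a | ∃ p ∈ s, ∀ i : Fin d, ((i : ℕ) : ℕ∞) < p.2 → a i = p.1 i}, ?_⟩
  ext x
  simp only [WS, V, Cl.set, pc, mem_ofPred_eq]
  refine exists_congr fun p => and_congr_right fun hp => ⟨fun h1 i hi => h1 i hi, fun h1 i hi => ?_⟩
  have : i < d := by exact_mod_cast hi.trans_le (h p hp)
  exact h1 ⟨i, this⟩ hi

theorem V_eq_WS (c : Cl) : ∃ s : Finset Pc, (∀ p ∈ s, p.2 ≤ c.1) ∧ V c = WS s := by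
  classical
  let e : (Fin c.1 → Bool) → Pc := fun a => (fun i => if h : i < c.1 then a ⟨i, h⟩ else false, c.1)
  refine ⟨(Set.toFinite c.2).toFinset.image e, ?_, ?_⟩
  · intro p hp
    obtain ⟨a, -, rfl⟩ := Finset.mem_image.1 hp
    exact le_rfl
  · ext x
    simp only [WS, V, Cl.set, pc, mem_ofPred_eq, Finset.mem_image, Finite.mem_toFinset]
    constructor
    · intro hx
      refine ⟨_, ⟨_, hx, rfl⟩, fun i hi => ?_⟩
      have hi' : (i : ℕ∞) < (c.1 : ℕ∞) := hi
      have : i < c.1 := by exact_mod_cast hi'
      simp [e, this]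
    · rintro ⟨p, ⟨a, ha, rfl⟩, h⟩
      have : (fun i : Fin c.1 => code x i) = a := by
        funext i
        have hi' : ((i : ℕ) : ℕ∞) < (c.1 : ℕ∞) := by exact_mod_cast i.2
        have := h i hi'
        simpa [e, i.2] using this
      rwa [this]

theorem mem_pc_top {u x : T} : x ∈ pc (code u, ⊤) ↔ x = u := by
  constructor
  · intro h
    apply code_injective
    funext i
    exact h i (ENat.natCast_lt_top i)
  · rintro rfl i _; rfl

theorem exists_sep (Γ : Finset T) :
    ∃ d : ℕ, ∀ u ∈ Γ, ∀ v ∈ Γ, (∀ i < d, code u i = code v i) → u = v := by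
  classical
  have h : ∀ q : T × T, ∃ k : ℕ, (∀ i < k, code q.1 i = code q.2 i) → q.1 = q.2 := by
    intro q
    by_cases hq : q.1 = q.2
    · exact ⟨0, fun _ => hq⟩
    · obtain ⟨i, hi⟩ := Function.ne_iff.1 (code_injective.ne hq)
      exact ⟨i + 1, fun h => absurd (h i (Nat.lt_succ_self i)) hi⟩
  choose k hk using h
  refine ⟨(Γ ×ˢ Γ).sup k, fun u hu v hv h => hk (u, v) fun i hi => h i ?_⟩
  exact hi.trans_le (Finset.le_sup (f := k) (Finset.mem_product.2 ⟨hu, hv⟩))

end Pool.Agent.H53Z.WB
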