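import Mathlib
import Pool.Agent.H53Z.WB.Gen

set_option autoImplicit false

open MeasureTheory Set Filter Topology Function
open scoped ENNReal

namespace Pool.Agent.H53Z.WB

theorem mu_le_of_agree {Q : Set (T → Bool)} {Γ₀ : Finset T} (hQ : FinDep Q Γ₀) (W W' : Set T) :
    mu W Q ≤ mu W' Q + P {y | ∃ x ∈ Γ₀, Zm W y x ≠ Zm W' y x} := by
  rw [mu_apply _ hQ.measurableSet, mu_apply _ hQ.measurableSet]
  refine le_trans (measure_mono ?_) (measure_union_le _ _)
  intro y hy
  by_cases h : ∃ x ∈ Γ₀, Zm W y x ≠ Zm W' y x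
  · exact Or.inr h
  · push Not at h
    exact Or.inl (hQ _ _ h hy)

theorem robust_base (σ : Measure (T → Bool)) [IsFiniteMeasure σ] {N : Set (T → Bool)}
    (hN : MeasurableSet N) (hσ : σ Nᶜ = 0) (hmu : ∀ c : Cl, mu (V c) N = 0) (n d : ℕ) {δ : ℝ≥0∞}
    (hδ : 0 < δ) :
    ∃ (Q : Set (T → Bool)) (Γ₀ : Finset T) (d' : ℕ), FinDep Q Γ₀ ∧ d ≤ d' ∧ σ Qᶜ ≤ δ ∧
      ∀ s : Finset Pc, s.card ≤ n → (∀ p ∈ s, ¬ ((d : ℕ∞) ≤ p.2 ∧ p.2 < d')) → mu (WS s) Q ≤ δ := by
  classical
  have hδ2 : 0 < δ / 2 := ENNReal.half_pos hδ.ne'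
  obtain ⟨η, hη0, hη⟩ := ENNReal.exists_nnreal_pos_mul_lt
    (a := 3 ^ n) (b := δ / 2) (ENNReal.pow_ne_top (by norm_num)) hδ2.ne'
  have hη1 : (η : ℝ≥0∞) ≤ δ / 2 := by
    refine le_trans ?_ hη.le
    exact le_mul_of_one_le_right (by simp) (one_le_pow₀ (by norm_num))
  let _ : Fintype (Set (Fin d → Bool)) := Fintype.ofFinite _
  let m : Measure (T → Bool) := σ + ∑ A : Set (Fin d → Bool), mu (V ⟨d, A⟩)
  obtain ⟨Q, Γ₀, hQ, hap⟩ := exists_approx m hN (η := η) (by exact_mod_cast hη0)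
  obtain ⟨Γ, hΓ⟩ := ufd Γ₀ n _ hδ2
  obtain ⟨d₀, hd₀⟩ := exists_sep Γ
  refine ⟨Q, Γ₀, max d d₀, hQ, le_max_left _ _, ?_, ?_⟩
  · calc σ Qᶜ ≤ σ (Nᶜ ∪ symmDiff N Q) := by
          refine measure_mono fun z hz => ?_
          by_cases h : z ∈ N
          · exact Or.inr (Or.inl ⟨h, hz⟩)
          · exact Or.inl h
      _ ≤ σ Nᶜ + σ (symmDiff N Q) := measure_union_le _ _
      _ ≤ 0 + m (symmDiff N Q) := by
          rw [hσ]; gcongr
          exact Measure.le_add_right le_rfl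
      _ ≤ δ := by
          rw [zero_add]; exact hap.trans (hη1.trans ENNReal.half_le_self)
  · intro s hs hgap
    let sh := s.filter fun p => p.2 < (d : ℕ∞)
    let dp := s.filter fun p => ¬ p.2 < (d : ℕ∞)
    let R := Γ.filter fun u => u ∈ WS dp
    have hdeep : ∀ p ∈ dp, ((max d d₀ : ℕ) : ℕ∞) ≤ p.2 := by
      intro p hp
      obtain ⟨h1, h2⟩ := Finset.mem_filter.1 hp
      by_contra hc
      exact hgap p h1 ⟨not_lt.1 h2, not_le.1 hc⟩
    have hRc : R.card ≤ dp.card := by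
      have hch : ∀ u : T, ∃ p : Pc, u ∈ WS dp → p ∈ dp ∧ u ∈ pc p := by
        intro u
        by_cases h : u ∈ WS dp
        · obtain ⟨p, hp, hu⟩ := h
          exact ⟨p, fun _ => ⟨hp, hu⟩⟩
        · exact ⟨(fun _ => true, 0), fun h' => absurd h' h⟩
      choose g hg using hch
      refine Finset.card_le_card_of_injOn g (fun u hu => ?_) (fun u hu v hv he => ?_)
      · exact (hg u (Finset.mem_filter.1 hu).2).1
      · obtain ⟨hu1, hu2⟩ := Finset.mem_filter.1 hu
        obtain ⟨hv1, hv2⟩ := Finset.mem_filter.1 hv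
        refine hd₀ u hu1 v hv1 fun i hi => ?_
        have hlt : (i : ℕ∞) < (g u).2 := by
          refine lt_of_lt_of_le ?_ (hdeep _ (hg u hu2).1)
          exact_mod_cast hi.trans_le (le_max_right _ _)
        rw [(hg u hu2).2 i hlt, (hg v hv2).2 i (he ▸ hlt), he]
    let s' : Finset Pc := sh ∪ R.image fun u => (code u, ⊤)
    have hcard : sh.card + dp.card = s.card := Finset.card_filter_add_card_filter_not _
    have hs' : s'.card ≤ n :=
      (Finset.card_union_le _ _).trans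
        ((add_le_add le_rfl (Finset.card_image_le.trans hRc)).trans (hcard.le.trans hs))
    have hW : WS s' = WS sh ∪ R := by
      ext u
      simp only [WS, s', mem_ofPred_eq, Finset.mem_union, Finset.mem_image, mem_union,
        Finset.mem_coe]
      constructor
      · rintro ⟨p, hp | ⟨v, hv, rfl⟩, hu⟩
        · exact Or.inl ⟨p, hp, hu⟩
        · exact Or.inr (mem_pc_top.1 hu ▸ hv)
      · rintro (⟨p, hp, hu⟩ | hu)
        · exact ⟨p, Or.inl hp, hu⟩
        · exact ⟨_, Or.inr ⟨u, hu, rfl⟩, mem_pc_top.2 rfl⟩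
    have hag : ∀ u ∈ Γ, u ∈ WS s ↔ u ∈ WS s' := by
      intro u hu
      rw [hW]
      constructor
      · rintro ⟨p, hp, hup⟩
        by_cases h : p.2 < (d : ℕ∞)
        · exact Or.inl ⟨p, Finset.mem_filter.2 ⟨hp, h⟩, hup⟩
        · exact Or.inr (Finset.mem_filter.2 ⟨hu, p, Finset.mem_filter.2 ⟨hp, h⟩, hup⟩)
      · rintro (⟨p, hp, hup⟩ | h)
        · exact ⟨p, (Finset.mem_filter.1 hp).1, hup⟩
        · obtain ⟨-, p, hp, hup⟩ := Finset.mem_filter.1 h
          exact ⟨p, (Finset.mem_filter.1 hp).1, hup⟩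
    obtain ⟨A, hA⟩ := WS_eq_V sh d fun p hp => (Finset.mem_filter.1 hp).2.le
    have hsh : mu (WS sh) Q ≤ η := by
      rw [hA]
      calc mu (V ⟨d, A⟩) Q ≤ mu (V ⟨d, A⟩) (N ∪ symmDiff N Q) := by
            refine measure_mono fun z hz => ?_
            by_cases h : z ∈ N
            · exact Or.inl h
            · exact Or.inr (Or.inr ⟨hz, h⟩)
        _ ≤ mu (V ⟨d, A⟩) N + mu (V ⟨d, A⟩) (symmDiff N Q) := measure_union_le _ _
        _ ≤ 0 + m (symmDiff N Q) := by
            rw [hmu]; gcongr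
            refine Measure.le_add_left ?_
            exact Finset.single_le_sum (f := fun A : Set (Fin d → Bool) => mu (V ⟨d, A⟩))
              (fun _ _ => bot_le) (Finset.mem_univ A)
        _ ≤ η := by rw [zero_add]; exact hap
    calc mu (WS s) Q ≤ mu (WS s') Q + δ / 2 :=
          (mu_le_of_agree hQ _ _).trans (add_le_add le_rfl (hΓ s s' hs hs' hag))
      _ ≤ 3 ^ R.card * η + δ / 2 := by
          gcongr
          rw [hW]
          exact (mu_union_le _ R hQ.measurableSet).trans (by gcongr)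
      _ ≤ 3 ^ n * η + δ / 2 := by
          gcongr
          · norm_num
          · exact hRc.trans ((Nat.le_add_left _ _).trans (hcard.le.trans hs))
      _ ≤ δ / 2 + δ / 2 := by
          gcongr
          rw [mul_comm]; exact hη.le
      _ = δ := ENNReal.add_halves δ

theorem robust_step (σ : Measure (T → Bool)) [IsFiniteMeasure σ] {N : Set (T → Bool)}
    (hN : MeasurableSet N) (hσ : σ Nᶜ = 0) (hmu : ∀ c : Cl, mu (V c) N = 0) (n : ℕ) {δ : ℝ≥0∞}
    (hδ : 0 < δ) (m : ℕ) : ∀ d : ℕ,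
    ∃ (Q : Set (T → Bool)) (Γ₀ : Finset T) (d' : ℕ), FinDep Q Γ₀ ∧ d ≤ d' ∧ σ Qᶜ ≤ (m + 1) * δ ∧
      ∀ s : Finset Pc, s.card ≤ n →
        (s.filter fun p : Pc => (d : ℕ∞) ≤ p.2 ∧ p.2 < (d' : ℕ∞)).card ≤ m → mu (WS s) Q ≤ δ := by
  classical
  induction m with
  | zero =>
    intro d
    obtain ⟨Q, Γ₀, d', h1, h2, h3, h4⟩ := robust_base σ hN hσ hmu n d hδ
    refine ⟨Q, Γ₀, d', h1, h2, by simpa using h3, fun s hs hc => h4 s hs fun p hp h => ?_⟩
    have := Finset.card_eq_zero.1 (Nat.le_zero.1 hc)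
    exact Finset.notMem_empty p (this ▸ Finset.mem_filter.2 ⟨hp, h⟩)
  | succ m ih =>
    intro d
    obtain ⟨Q, Γ₀, d₁, h1, h2, h3, h4⟩ := robust_base σ hN hσ hmu n d hδ
    obtain ⟨Q', Γ₀', d', h1', h2', h3', h4'⟩ := ih d₁
    refine ⟨Q ∩ Q', Γ₀ ∪ Γ₀', d', h1.inter h1', h2.trans h2', ?_, fun s hs hc => ?_⟩
    · rw [compl_inter]
      refine (measure_union_le _ _).trans ((add_le_add h3 h3').trans (le_of_eq ?_))
      push_cast; ring
    · by_cases hgap : ∀ p ∈ s, ¬ ((d : ℕ∞) ≤ p.2 ∧ p.2 < d₁)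
      · exact (measure_mono inter_subset_left).trans (h4 s hs hgap)
      · push Not at hgap
        obtain ⟨p, hp, hp1, hp2⟩ := hgap
        refine (measure_mono inter_subset_right).trans (h4' s hs ?_)
        have hd : ((d₁ : ℕ) : ℕ∞) ≤ d' := by exact_mod_cast h2'
        have hd' : ((d : ℕ) : ℕ∞) ≤ d₁ := by exact_mod_cast h2
        have hlt : (s.filter fun p : Pc => (d₁ : ℕ∞) ≤ p.2 ∧ p.2 < (d' : ℕ∞)).card <
            (s.filter fun p : Pc => (d : ℕ∞) ≤ p.2 ∧ p.2 < (d' : ℕ∞)).card := by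
          refine Finset.card_lt_card ⟨fun q hq => ?_, fun hsub => ?_⟩
          · obtain ⟨a, b, c⟩ := Finset.mem_filter.1 hq
            exact Finset.mem_filter.2 ⟨a, hd'.trans b, c⟩
          · have := hsub (Finset.mem_filter.2 ⟨hp, hp1, hp2.trans_le hd⟩)
            exact absurd (Finset.mem_filter.1 this).2.1 (not_le.2 hp2)
        omega

theorem robust (σ : Measure (T → Bool)) [IsFiniteMeasure σ] {N : Set (T → Bool)}
    (hN : MeasurableSet N) (hσ : σ Nᶜ = 0) (hmu : ∀ c : Cl, mu (V c) N = 0) (n : ℕ) {ε : ℝ≥0∞}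
    (hε : 0 < ε) :
    ∃ (Q : Set (T → Bool)) (Γ₀ : Finset T), FinDep Q Γ₀ ∧ σ Qᶜ ≤ ε ∧
      ∀ s : Finset Pc, s.card ≤ n → mu (WS s) Q ≤ ε := by
  obtain ⟨η, hη0, hη⟩ := ENNReal.exists_nnreal_pos_mul_lt
    (a := (n : ℝ≥0∞) + 1) (b := ε) (by simp) hε.ne'
  obtain ⟨Q, Γ₀, d', h1, -, h3, h4⟩ := robust_step σ hN hσ hmu n (δ := η)
    (by exact_mod_cast hη0) n 0
  refine ⟨Q, Γ₀, h1, h3.trans (by rw [mul_comm]; exact hη.le), fun s hs => ?_⟩
  refine (h4 s hs ((Finset.card_filter_le _ _).trans hs)).trans (le_trans ?_ hη.le)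
  exact le_mul_of_one_le_right (by simp) (by simp)

/-- the event that no forbidden pattern occurs -/
def Fs (f : ℕ → T) (Q : ℕ → Cl) : Set (T → Bool) := {z | ∀ n, (fun i => z (f i)) ∉ (Q n).set}

theorem measurableSet_Fs (f : ℕ → T) (Q : ℕ → Cl) : MeasurableSet (Fs f Q) := by
  have hm : Measurable fun (z : T → Bool) (i : ℕ) => z (f i) :=
    measurable_pi_lambda _ fun i => measurable_pi_apply _
  have : Fs f Q = ⋂ n, ((fun (z : T → Bool) (i : ℕ) => z (f i)) ⁻¹' (Q n).set)ᶜ := by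
    ext z; simp [Fs]
  rw [this]
  exact MeasurableSet.iInter fun n => (hm (Q n).measurableSet_set).compl

/-- the set of patterns in which `x` is active -/
def act (x : T) : Set (T → Bool) := {z | z x = true}

theorem finDep_act (x : T) : FinDep (act x) {x} := fun z z' h hz => by
  have := h x (Finset.mem_singleton_self x)
  change z' x = true
  rw [← this]; exact hz

theorem lint_act (f : ℕ → T) (Q : ℕ → Cl) (hg : Good (fun i => Z (f i)) Q) (W : Set T)
    {g : (T → Bool) → ℝ≥0∞} (hgm : Measurable g) :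
    ∃ H : Set T, H.Countable ∧ ∀ (B : MS) (r : ℝ), T.node f (Q, B, r) ∉ H →
      (T.node f (Q, B, r) ∈ W → ∫⁻ z in act (T.node f (Q, B, r)), g z ∂(mu W) = 0) ∧
      (T.node f (Q, B, r) ∉ W → ∫⁻ z in act (T.node f (Q, B, r)), g z ∂(mu W) =
        coin (T.node f (Q, B, r)) {true} * ∫⁻ z in Fs f Q, g z ∂(mu W)) := by
  classical
  let G : (T → Bool) → ℝ≥0∞ := fun y => (Fs f Q).indicator g (Zm W y)
  have hG : Measurable G := (hgm.indicator (measurableSet_Fs f Q)).comp (measurable_Zm W)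
  obtain ⟨H, hH, hdep⟩ := countable_dep_fun hG
  refine ⟨H, hH, fun B r hx => ?_⟩
  set x := T.node f (Q, B, r) with hxdef
  have hm := (finDep_act x).measurableSet
  have e0 : ∫⁻ z in act x, g z ∂(mu W) = ∫⁻ y, (act x).indicator g (Zm W y) ∂P := by
    rw [← lintegral_indicator hm, mu, lintegral_map (hgm.indicator hm) (measurable_Zm W)]
  have hact : ∀ y, Zm W y ∈ act x ↔ off W y x = true ∧ Zm W y ∈ Fs f Q := by
    intro y
    change Z x (off W y) = true ↔ _
    rw [hxdef, Z_node]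
    exact ⟨fun h => ⟨h.1, h.2.2⟩, fun h => ⟨h.1, hg, h.2⟩⟩
  constructor
  · intro hW
    rw [e0]
    have : ∀ y, (act x).indicator g (Zm W y) = 0 := by
      intro y
      rw [indicator_of_notMem]
      rw [hact, off_mem hW]; simp
    simp [this]
  · intro hW
    have e1 : ∀ y, (act x).indicator g (Zm W y) = if y x = true then G y else 0 := by
      intro y
      by_cases hy : y x = true
      · rw [if_pos hy]
        by_cases hF : Zm W y ∈ Fs f Q
        · simp only [G]
          rw [indicator_of_mem hF, indicator_of_mem ((hact y).2 ⟨by rw [off_not_mem hW, hy], hF⟩)]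
        · simp only [G]
          rw [indicator_of_notMem hF, indicator_of_notMem fun h => hF ((hact y).1 h).2]
      · rw [if_neg hy, indicator_of_notMem]
        intro h
        have := ((hact y).1 h).1
        rw [off_not_mem hW] at this
        exact hy this
    have hmeas : Measurable fun y : T → Bool => if y x = true then G y else 0 :=
      Measurable.ite hm hG measurable_const
    have e2 : ∀ y, G (update y x true) = G y := fun y => hdep _ _ fun u hu =>
      update_of_ne (fun he : u = x => hx (he ▸ hu)) _ _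
    rw [e0]
    simp only [e1]
    rw [P, lintegral_resample coin x hmeas]
    simp only [update_self, if_true, e2, Bool.false_eq_true, if_false, lintegral_zero, mul_zero,
      add_zero]
    congr 1
    rw [← lintegral_indicator (measurableSet_Fs f Q), mu,
      lintegral_map (hgm.indicator (measurableSet_Fs f Q)) (measurable_Zm W)]
    rfl

theorem mu_Fs_ne_zero (f : ℕ → T) (Q : ℕ → Cl) (hg : Good (fun i => Z (f i)) Q) :
    mu (WS ∅) (Fs f Q) ≠ 0 := by
  intro h0
  have h1 : mu (WS ∅) (Fs f Q)ᶜ ≤ 2⁻¹ ^ (0 + 1) := by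
    rw [mu_apply _ (measurableSet_Fs f Q).compl, ← tail_eps]
    have : Zm (WS ∅) ⁻¹' (Fs f Q)ᶜ =
        ⋃ n, {y | (fun i => Z (f i) (off (WS ∅) y)) ∈ (Q n).set} := by
      ext y; simp [Fs, Zm]
    rw [this]
    refine (measure_iUnion_le _).trans (ENNReal.tsum_le_tsum fun j => ?_)
    exact hg j ∅ (by simp)
  have h2 := measure_add_measure_compl (μ := mu (WS ∅)) (measurableSet_Fs f Q)
  rw [h0, zero_add, measure_univ] at h2
  rw [h2] at h1
  norm_num at h1

/-- the compact space: the closed support of the laws `mu (V c)` -/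
def K : Set (T → Bool) := {z | ∀ Γ : Finset T, ∃ c : Cl, mu (V c) (cyl Γ z) ≠ 0}

theorem isClosed_K : IsClosed K := by
  rw [← isOpen_compl_iff, isOpen_iff_forall_mem_open]
  intro z hz
  simp only [K, mem_compl_iff, mem_ofPred_eq, not_forall, not_exists, not_not] at hz
  obtain ⟨Γ, hΓ⟩ := hz
  refine ⟨cyl Γ z, fun w hw hwK => ?_, (finDep_cyl Γ z).isClopen.isOpen, self_mem_cyl Γ z⟩
  obtain ⟨c, hc⟩ := hwK Γ
  apply hc
  have : cyl Γ w = cyl Γ z := by
    ext v
    exact ⟨fun h u hu => (h u hu).trans (hw u hu), fun h u hu => (h u hu).trans (hw u hu).symm⟩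
  rw [this]; exact hΓ c

instance : CompactSpace K := isCompact_iff_compactSpace.1 isClosed_K.isCompact

theorem null_of_disjoint {C : Set (T → Bool)} (hC : IsClosed C) (h : Disjoint C K) (c : Cl) :
    mu (V c) C = 0 := by
  have h1 : ∀ z : C, ∃ Γ : Finset T, mu (V c) (cyl Γ z.1) = 0 := by
    intro z
    have hz := Set.disjoint_left.1 h z.2
    simp only [K, mem_ofPred_eq, not_forall, not_exists, not_not] at hz
    obtain ⟨Γ, hΓ⟩ := hz
    exact ⟨Γ, hΓ c⟩
  choose Γ hΓ using h1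
  obtain ⟨t, ht⟩ := hC.isCompact.elim_finite_subcover (fun z : C => cyl (Γ z) z.1)
    (fun z => (finDep_cyl _ _).isClopen.isOpen)
    (fun z hz => mem_iUnion.2 ⟨⟨z, hz⟩, self_mem_cyl _ _⟩)
  refine measure_mono_null ht ?_
  exact (measure_biUnion_null_iff t.countable_toSet).2 fun z _ => hΓ z

theorem disjoint_K_of_never {C : Set (T → Bool)} {Γ : Finset T} (hC : FinDep C Γ)
    (h : ∀ W y, Zm W y ∉ C) : Disjoint C K := by
  refine Set.disjoint_left.2 fun z hz hzK => ?_
  obtain ⟨c, hc⟩ := hzK Γ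
  apply hc
  rw [mu_apply _ (finDep_cyl Γ z).measurableSet]
  have : Zm (V c) ⁻¹' cyl Γ z = ∅ := by
    ext y
    simp only [mem_preimage, mem_empty_iff_false, iff_false]
    intro hy
    exact h (V c) y (hC z _ (fun u hu => (hy u hu).symm) hz)
  rw [this, measure_empty]

end Pool.Agent.H53Z.WB
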