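import Mathlib
import Pool.Agent.H53Z.WB.Rob
import Pool.Agent.H53Z.WB.FA
import Pool.Agent.Helper393.WB.A

set_option autoImplicit false

open MeasureTheory Set Filter Topology Function TopologicalSpace
open scoped ENNReal

namespace Pool.Agent.H53Z.WB

theorem cm_measurable (g : C(T → Bool, ℝ)) : Measurable g :=
  Pool.Agent.Helper882.Dirac.continuous_measurable_pi T g

theorem cm_abs_le (g : C(T → Bool, ℝ)) (z : T → Bool) : |g z| ≤ ‖g‖ := g.norm_coe_le_norm z

theorem ae_abs_le (g : C(T → Bool, ℝ)) (c : Cl) : ∀ᵐ z ∂(mu (V c)), |g z| ≤ ‖g.restrict K‖ := by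
  have h : ∀ k : ℕ, ∀ᵐ z ∂(mu (V c)), |g z| < ‖g.restrict K‖ + 1 / ((k : ℝ) + 1) := by
    intro k
    rw [ae_iff]
    simp only [not_lt]
    refine null_of_disjoint (isClosed_le continuous_const (by fun_prop)) ?_ c
    refine Set.disjoint_left.2 fun z hz hzK => ?_
    have h1 : |g z| ≤ ‖g.restrict K‖ := (g.restrict K).norm_coe_le_norm ⟨z, hzK⟩
    have h2 : (0 : ℝ) < 1 / ((k : ℝ) + 1) := by positivity
    have h3 : ‖g.restrict K‖ + 1 / ((k : ℝ) + 1) ≤ |g z| := hz
    linarith
  filter_upwards [ae_all_iff.2 h] with z hz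
  refine le_of_forall_pos_lt_add fun δ hδ => ?_
  obtain ⟨k, hk⟩ := exists_nat_one_div_lt hδ
  linarith [hz k]

theorem exists_phi (c : Cl) : ∃ φ : StrongDual ℝ C(K, ℝ),
    ∀ g : C(T → Bool, ℝ), φ (g.restrict K) = ∫ z, g z ∂(mu (V c)) := by
  let Λ : C(T → Bool, ℝ) →ₗ[ℝ] ℝ :=
    { toFun := fun g => ∫ z, g z ∂(mu (V c))
      map_add' := fun g g' => by
        simp only [ContinuousMap.add_apply]
        exact integral_add (integrable_bdd _ (cm_measurable g) (cm_abs_le g))
          (integrable_bdd _ (cm_measurable g') (cm_abs_le g'))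
      map_smul' := fun a g => by
        simp only [ContinuousMap.smul_apply, RingHom.id_apply]
        exact integral_smul _ _ }
  refine exists_descend isClosed_K Λ fun g => ?_
  have := norm_integral_le_of_norm_le_const (μ := mu (V c)) (f := g) (ae_abs_le g c)
  change |∫ z, g z ∂(mu (V c))| ≤ _
  simpa using this

theorem cube_dep (g : C(T → Bool, ℝ)) {ε : ℝ} (hε : 0 < ε) :
    ∃ Γ : Finset T, ∀ z z' : T → Bool, (∀ x ∈ Γ, z x = z' x) → |g z - g z'| < ε := by
  obtain ⟨Γ, hΓ⟩ := Pool.Agent.Helper393.WB.finite_dep (K := univ) isCompact_univ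
    (g.restrict univ) hε
  exact ⟨Γ, fun z z' h => hΓ ⟨z, trivial⟩ ⟨z', trivial⟩ h⟩

theorem integral_off_zero (g : C(T → Bool, ℝ)) (h0 : ∀ c : Cl, ∫ z, g z ∂(mu (V c)) = 0) (c : Cl)
    (R : Finset T) : ∫ y, g (Zm (V c ∪ R) y) ∂P = 0 := by
  classical
  obtain ⟨s₀, hs₀, hV⟩ := V_eq_WS c
  let sd : ℕ∞ → Finset Pc := fun j => s₀ ∪ R.image fun u => (code u, j)
  have hcard : ∀ j, (sd j).card ≤ s₀.card + R.card := fun j =>
    (Finset.card_union_le _ _).trans (add_le_add le_rfl Finset.card_image_le)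
  have hmem : ∀ j u, u ∈ WS (sd j) ↔ u ∈ WS s₀ ∨ ∃ v ∈ R, u ∈ pc (code v, j) := by
    intro j u
    simp only [WS, sd, mem_ofPred_eq, Finset.mem_union, Finset.mem_image]
    constructor
    · rintro ⟨p, hp | ⟨v, hv, rfl⟩, hu⟩
      · exact Or.inl ⟨p, hp, hu⟩
      · exact Or.inr ⟨v, hv, hu⟩
    · rintro (⟨p, hp, hu⟩ | ⟨v, hv, hu⟩)
      · exact ⟨p, Or.inl hp, hu⟩
      · exact ⟨_, Or.inr ⟨v, hv, rfl⟩, hu⟩
  have htop : WS (sd ⊤) = V c ∪ R := by
    ext u
    rw [hmem, hV]
    simp only [mem_pc_top, mem_union, Finset.mem_coe, exists_eq_right']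
  have hfin : ∀ j : ℕ, ∫ y, g (Zm (WS (sd j)) y) ∂P = 0 := by
    intro j
    obtain ⟨A, hA⟩ := WS_eq_V (sd j) (max c.1 j) (by
      intro p hp
      rcases Finset.mem_union.1 hp with hp | hp
      · exact (hs₀ p hp).trans (by exact_mod_cast le_max_left _ _)
      · obtain ⟨v, -, rfl⟩ := Finset.mem_image.1 hp
        change (j : ℕ∞) ≤ _
        exact_mod_cast le_max_right _ _)
    rw [hA, ← h0 ⟨_, A⟩, mu, integral_map (measurable_Zm _).aemeasurable
      (cm_measurable g).aestronglyMeasurable]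
  rw [← htop]
  have key : ∀ ε : ℝ, 0 < ε → |∫ y, g (Zm (WS (sd ⊤)) y) ∂P| ≤ ε + 2 * ‖g‖ * ε := by
    intro ε hε
    obtain ⟨Γ₀, hΓ₀⟩ := cube_dep g hε
    obtain ⟨Γ, hΓ⟩ := ufd Γ₀ (s₀.card + R.card) (ENNReal.ofReal ε) (by simpa using hε)
    obtain ⟨j, hj⟩ := exists_sep (Γ ∪ R)
    have hag : ∀ u ∈ Γ, u ∈ WS (sd ⊤) ↔ u ∈ WS (sd j) := by
      intro u hu
      rw [hmem, hmem]
      refine or_congr_right (exists_congr fun v => and_congr_right fun hv => ?_)
      rw [mem_pc_top]
      constructor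
      · rintro rfl i _; rfl
      · intro h
        refine hj u (Finset.mem_union_left _ hu) v (Finset.mem_union_right _ hv) fun i hi => ?_
        exact h i (by change (i : ℕ∞) < (j : ℕ∞); exact_mod_cast hi)
    have hb := hΓ _ _ (hcard ⊤) (hcard j) hag
    set Bad := {y | ∃ x ∈ Γ₀, Zm (WS (sd ⊤)) y x ≠ Zm (WS (sd j)) y x} with hBad
    have hBm : MeasurableSet Bad := by
      have : Bad = ⋃ x ∈ Γ₀, {y | Zm (WS (sd ⊤)) y x = Zm (WS (sd j)) y x}ᶜ := by
        ext y; simp [hBad]
      rw [this]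
      refine Finset.measurableSet_biUnion _ fun x _ => MeasurableSet.compl ?_
      exact measurableSet_eq_fun ((measurable_pi_apply x).comp (measurable_Zm _))
        ((measurable_pi_apply x).comp (measurable_Zm _))
    have hi : ∀ W, Integrable (fun y => g (Zm W y)) P := fun W =>
      integrable_bdd _ ((cm_measurable g).comp (measurable_Zm W)) fun y => cm_abs_le g _
    have e : ∫ y, g (Zm (WS (sd ⊤)) y) ∂P =
        ∫ y, (g (Zm (WS (sd ⊤)) y) - g (Zm (WS (sd j)) y)) ∂P := by
      rw [integral_sub (hi _) (hi _), hfin, sub_zero]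
    have hbi : Integrable (Bad.indicator fun _ => 2 * ‖g‖) P := (integrable_const _).indicator hBm
    have hle := norm_integral_le_of_norm_le (μ := P)
      (f := fun y => g (Zm (WS (sd ⊤)) y) - g (Zm (WS (sd j)) y))
      (g := fun y => ε + Bad.indicator (fun _ => 2 * ‖g‖) y) ((integrable_const _).add hbi)
      (Eventually.of_forall fun y => by
        rw [Real.norm_eq_abs]
        by_cases hy : y ∈ Bad
        · rw [indicator_of_mem hy]
          have h1 := cm_abs_le g (Zm (WS (sd ⊤)) y)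
          have h2 := cm_abs_le g (Zm (WS (sd j)) y)
          have h3 := abs_sub (g (Zm (WS (sd ⊤)) y)) (g (Zm (WS (sd j)) y))
          linarith
        · rw [indicator_of_notMem hy, add_zero]
          simp only [hBad, mem_ofPred_eq, not_exists, not_and, not_not] at hy
          exact (hΓ₀ _ _ hy).le)
    rw [integral_add (integrable_const _) hbi, integral_indicator hBm] at hle
    simp only [integral_const, probReal_univ, smul_eq_mul, one_mul, Real.norm_eq_abs,
      MeasurableSet.univ, measureReal_restrict_apply, univ_inter] at hle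
    rw [e]
    refine hle.trans ?_
    have : P.real Bad ≤ ε := ENNReal.toReal_le_of_le_ofReal hε.le hb
    have hg0 := norm_nonneg g
    nlinarith
  have : |∫ y, g (Zm (WS (sd ⊤)) y) ∂P| ≤ 0 := by
    refine le_of_forall_pos_le_add fun δ hδ => ?_
    have hg0 := norm_nonneg g
    have := key (δ / (1 + 2 * ‖g‖)) (by positivity)
    have e : δ / (1 + 2 * ‖g‖) + 2 * ‖g‖ * (δ / (1 + 2 * ‖g‖)) = δ := by
      field_simp
    linarith
  exact abs_nonpos_iff.1 this

theorem restrict_eq_zero (g : C(T → Bool, ℝ)) (h0 : ∀ c : Cl, ∫ z, g z ∂(mu (V c)) = 0) :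
    g.restrict K = 0 := by
  have hae : ∀ c : Cl, ∀ᵐ y ∂P, g (Zm (V c) y) = 0 := by
    intro c
    refine ae_zero_of_off coin coin_true_ne (Ψ := fun y => g (Zm (V c) y))
      ((cm_measurable g).comp (measurable_Zm _)) (fun y => cm_abs_le g _) fun R => ?_
    refine Eq.trans ?_ (integral_off_zero g h0 c R)
    congr 1
    funext y
    congr 1
    funext x
    simp only [Zm, off_off]
  ext z
  have : |g z.1| ≤ 0 := by
    refine le_of_forall_pos_le_add fun ε hε => ?_
    obtain ⟨Γ, hΓ⟩ := cube_dep g hε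
    obtain ⟨c, hc⟩ := z.2 Γ
    rw [mu_apply _ (finDep_cyl Γ _).measurableSet] at hc
    obtain ⟨y, hy1, hy2⟩ := Measure.exists_mem_of_measure_ne_zero_of_ae hc
      (ae_restrict_of_ae (hae c))
    have := hΓ _ _ hy1
    rw [hy2, zero_sub, abs_neg] at this
    linarith
  exact abs_nonpos_iff.1 this

theorem separable_dual : SeparableSpace (WeakDual ℝ C(K, ℝ)) := by
  choose φ hφ using exists_phi
  refine separable_of_total φ fun f hf => ?_
  obtain ⟨g, rfl⟩ := ContinuousMap.exists_restrict_eq isClosed_K f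
  exact restrict_eq_zero g fun c => (hφ c g).symm.trans (hf c)

end Pool.Agent.H53Z.WB
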