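import Mathlib
import Pool.Agent.H53Z.WB.Tot
import Pool.Agent.H53Z.WB.Edgar

set_option autoImplicit false

open MeasureTheory Set Filter Topology Function TopologicalSpace
open scoped ENNReal

namespace Pool.Agent.H53Z.WB

open Classical in
/-- the height of the test function of a generator -/
noncomputable def ht (x : T) : ℝ≥0∞ := if Rare x then 2 else 1

theorem ht_mul (x : T) : ht x * coin x {true} = 2 * 3⁻¹ := by
  unfold ht
  split_ifs with h
  · rw [coin_true_rare h]
  · rw [coin_true_not_rare h, one_mul]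

/-- prediction lemma: countably many measures carried by `K` see the test functions of most
generators of a suitable class through a Borel function of the code -/
theorem predict (ν : ℕ → Measure (T → Bool)) [∀ n, IsFiniteMeasure (ν n)]
    (hν : ∀ n (C : Set (T → Bool)) (Γ : Finset T), FinDep C Γ → Disjoint C K → ν n C = 0) :
    ∃ (f : ℕ → T) (Q : ℕ → Cl), Good (fun i => Z (f i)) Q ∧ ∃ H : Set T, H.Countable ∧
      ∃ t : ℕ → (ℕ → Bool) → ℝ≥0∞, (∀ n, Measurable (t n)) ∧
        ∀ (B : MS) (r : ℝ), T.node f (Q, B, r) ∉ H → ∀ n,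
          ht (T.node f (Q, B, r)) * ν n (act (T.node f (Q, B, r))) =
            t n (code (T.node f (Q, B, r))) := by
  classical
  obtain ⟨e, he⟩ := exists_surjective_nat Cl
  let mb : Measure (T → Bool) := Measure.sum fun k : ℕ => (2⁻¹ : ℝ≥0∞) ^ k • mu (V (e k))
  have hfin : IsFiniteMeasure mb := ⟨by
    simp only [mb, Measure.sum_apply _ MeasurableSet.univ, Measure.smul_apply, measure_univ,
      smul_eq_mul, mul_one]
    rw [ENNReal.tsum_geometric]
    simp⟩
  have hsing := fun n => Measure.mutuallySingular_singularPart (ν n) mb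
  let N : Set (T → Bool) := ⋃ n, (hsing n).nullSetᶜ
  have hN : MeasurableSet N := MeasurableSet.iUnion fun n => (hsing n).measurableSet_nullSet.compl
  have hmbN : mb N = 0 := measure_iUnion_null fun n => (hsing n).measure_compl_nullSet
  have hmu : ∀ c : Cl, mu (V c) N = 0 := by
    intro c
    obtain ⟨k, rfl⟩ := he c
    have h1 : ((2⁻¹ : ℝ≥0∞) ^ k • mu (V (e k))) N ≤ mb N :=
      Measure.le_sum (fun k : ℕ => (2⁻¹ : ℝ≥0∞) ^ k • mu (V (e k))) k N
    rw [hmbN, Measure.smul_apply, smul_eq_mul, nonpos_iff_eq_zero, mul_eq_zero] at h1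
    exact h1.resolve_left (pow_ne_zero _ (by simp))
  have hsN : ∀ n, (ν n).singularPart mb Nᶜ = 0 := by
    intro n
    refine measure_mono_null (fun z hz => ?_) (hsing n).measure_nullSet
    by_contra hc
    exact hz (mem_iUnion.2 ⟨n, hc⟩)
  have hrob : ∀ m : ℕ, ∃ (Q : Set (T → Bool)) (Γ₀ : Finset T), FinDep Q Γ₀ ∧
      (∑ n ∈ Finset.range (m + 1), (ν n).singularPart mb) Qᶜ ≤ eps m ∧
      ∀ s : Finset Pc, s.card ≤ m → mu (WS s) Q ≤ eps m := by
    intro m
    refine robust _ hN ?_ hmu m (ENNReal.pow_pos (by simp) _)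
    rw [Measure.finsetSum_apply]
    exact Finset.sum_eq_zero fun n _ => hsN n
  choose Qs Γs hQ hσ hmuQ using hrob
  have hcount : ((⋃ m, (Γs m : Set T)) ∪ {T.leaf}).Countable :=
    (countable_iUnion fun m => (Γs m).countable_toSet).union (countable_singleton _)
  obtain ⟨f, hf⟩ := hcount.exists_eq_range ⟨T.leaf, Or.inr rfl⟩
  have hL : ∀ m, ∃ L : ℕ, ∀ u ∈ Γs m, ∃ i < L, f i = u := by
    intro m
    have h1 : ∀ u : T, ∃ i : ℕ, u ∈ Γs m → f i = u := by
      intro u
      by_cases hu : u ∈ Γs m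
      · have : u ∈ range f := hf ▸ Or.inl (mem_iUnion.2 ⟨m, hu⟩)
        obtain ⟨i, hi⟩ := this
        exact ⟨i, fun _ => hi⟩
      · exact ⟨0, fun h => absurd h hu⟩
    choose i hi using h1
    exact ⟨(Γs m).sup i + 1, fun u hu =>
      ⟨i u, Nat.lt_succ_of_le (Finset.le_sup (f := i) hu), hi u hu⟩⟩
  choose L hL using hL
  let Q : ℕ → Cl := fun m => ⟨L m, {a | ∃ z ∈ Qs m, ∀ i : Fin (L m), a i = z (f i)}⟩
  have hQiff : ∀ m (z : T → Bool), (fun i => z (f i)) ∈ (Q m).set ↔ z ∈ Qs m := by
    intro m z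
    constructor
    · rintro ⟨z', hz', h⟩
      refine hQ m z' z (fun u hu => ?_) hz'
      obtain ⟨i, hi, rfl⟩ := hL m u hu
      exact (h ⟨i, hi⟩).symm
    · intro hz
      exact ⟨z, hz, fun _ => rfl⟩
  have hgood : Good (fun i => Z (f i)) Q := by
    intro n s hs
    have := hmuQ n s hs
    rw [mu_apply _ (hQ n).measurableSet] at this
    refine le_trans (le_of_eq ?_) this
    congr 1
    ext y
    exact hQiff n (Zm (WS s) y)
  have hl := fun (p : ℕ × ℕ) => lint_act f Q hgood (V (e p.2))
    (g := (ν p.1).rnDeriv mb) (Measure.measurable_rnDeriv _ _)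
  choose H hH hl using hl
  refine ⟨f, Q, hgood, ⋃ p, H p, countable_iUnion hH, fun n w => ∑' k : ℕ, 2⁻¹ ^ k *
    ((e k).setᶜ).indicator (fun _ => 2 * 3⁻¹ *
      ∫⁻ z in Fs f Q, (ν n).rnDeriv mb z ∂(mu (V (e k)))) w, fun n => ?_, fun B r hx n => ?_⟩
  · refine Measurable.ennreal_tsum fun k => measurable_const.mul ?_
    exact measurable_const.indicator (e k).measurableSet_set.compl
  set x := T.node f (Q, B, r) with hxdef
  have hm := (finDep_act x).measurableSet
  have hs0 : (ν n).singularPart mb (act x) = 0 := by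
    have hle : ∀ m, n ≤ m → (ν n).singularPart mb (act x) ≤ eps m := by
      intro m hnm
      have h1 : ν n (act x ∩ Qs m) = 0 := by
        refine hν n _ _ ((finDep_act x).inter (hQ m))
          (disjoint_K_of_never ((finDep_act x).inter (hQ m)) fun W y hy => ?_)
        have h2 : Z x (off W y) = true := hy.1
        rw [hxdef, Z_node] at h2
        exact h2.2.2 m ((hQiff m (Zm W y)).2 hy.2)
      have h2 : (ν n).singularPart mb (act x ∩ Qs m) = 0 :=
        le_antisymm ((Measure.singularPart_le (ν n) mb _).trans h1.le) bot_le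
      have h3 : (ν n).singularPart mb (Qs m)ᶜ ≤ eps m := by
        refine le_trans ?_ (hσ m)
        rw [Measure.finsetSum_apply]
        exact Finset.single_le_sum (f := fun n => (ν n).singularPart mb (Qs m)ᶜ)
          (fun _ _ => bot_le) (Finset.mem_range.2 (Nat.lt_succ_of_le hnm))
      calc (ν n).singularPart mb (act x)
          ≤ (ν n).singularPart mb ((act x ∩ Qs m) ∪ (Qs m)ᶜ) := by
            refine measure_mono fun z hz => ?_
            by_cases h : z ∈ Qs m
            · exact Or.inl ⟨hz, h⟩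
            · exact Or.inr h
        _ ≤ _ := (measure_union_le _ _).trans (by rw [h2, zero_add]; exact h3)
    by_contra hne
    obtain ⟨m₀, hm₀⟩ := ENNReal.exists_inv_two_pow_lt hne
    have := hle (max m₀ n) (le_max_right _ _)
    have h4 : eps (max m₀ n) ≤ 2⁻¹ ^ m₀ :=
      pow_le_pow_of_le_one (by simp) (by simp) ((le_max_left _ _).trans (Nat.le_add_right _ _))
    exact absurd (this.trans h4) (not_le.2 hm₀)
  have hdec : ν n (act x) = ∑' k : ℕ, 2⁻¹ ^ k *
      ∫⁻ z in act x, (ν n).rnDeriv mb z ∂(mu (V (e k))) := by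
    conv_lhs => rw [Measure.haveLebesgueDecomposition_add (ν n) mb]
    rw [Measure.add_apply, hs0, zero_add, withDensity_apply _ hm]
    simp only [mb]
    rw [Measure.restrict_sum _ hm, lintegral_sum_measure]
    congr 1
    funext k
    rw [Measure.restrict_smul, lintegral_smul_measure]
    rfl
  rw [hdec, ← ENNReal.tsum_mul_left]
  congr 1
  funext k
  have hk := hl (n, k) B r fun h => hx (mem_iUnion.2 ⟨(n, k), h⟩)
  by_cases hW : x ∈ V (e k)
  · rw [hk.1 hW, indicator_of_notMem (by simpa [V] using hW)]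
    simp
  · rw [hk.2 hW, indicator_of_mem (by simpa [V] using hW), ← ht_mul x]
    ring

/-- the indicator function of the activity of a generator -/
noncomputable def ind (x : T) : C(T → Bool, ℝ) where
  toFun z := if z x = true then 1 else 0
  continuous_toFun := by
    have h1 : Continuous (fun b : Bool => (if b = true then (1 : ℝ) else 0)) :=
      continuous_of_discreteTopology
    exact h1.comp (continuous_apply x)

theorem integral_ind (x : T) (m : Measure (T → Bool)) : ∫ z, ind x z ∂m = (m (act x)).toReal := by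
  have : (fun z => ind x z) = (act x).indicator 1 := by
    funext z
    by_cases h : z ∈ act x
    · rw [indicator_of_mem h]
      have h' : z x = true := h
      simp [ind, h']
    · rw [indicator_of_notMem h]
      have h' : ¬ z x = true := h
      simp [ind, h']
  rw [this, integral_indicator_one (finDep_act x).measurableSet]
  rfl

/-- the test function of a generator -/
noncomputable def test (x : T) : C(K, ℝ) := (ht x).toReal • (ind x).restrict K

theorem not_measurable_norm :
    ¬ Measurable[⨆ φ : StrongDual ℝ C(K, ℝ), MeasurableSpace.comap φ (borel ℝ), borel ℝ]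
      (fun f : C(K, ℝ) => ‖f‖) := by
  classical
  intro hmeas
  have hB : MeasurableSet[⨆ φ : StrongDual ℝ C(K, ℝ), MeasurableSpace.comap φ (borel ℝ)]
      ((fun f : C(K, ℝ) => ‖f‖) ⁻¹' Iic (3 / 2)) := hmeas measurableSet_Iic
  obtain ⟨J, hJ, hBJ⟩ := exists_countable_iSup _ hB
  obtain ⟨φ, hφ⟩ := (hJ.insert 0).exists_eq_range (insert_nonempty _ _)
  choose ν hν1 hν2 hν3 using fun n => exists_two_measures (φ n)
  obtain ⟨e, he⟩ := exists_surjective_nat (ℕ × Bool)
  have : ∀ j, IsFiniteMeasure (ν (e j).1 (e j).2) := fun j => hν1 _ _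
  obtain ⟨f, Q, hgood, H, hH, t, ht1, ht2⟩ := predict (fun j => ν (e j).1 (e j).2) (by
    intro j C Γ hC hd
    let g : C(T → Bool, ℝ) := ⟨C.indicator 1, hC.isClopen.continuous_indicator continuous_const⟩
    have h1 := hν2 (e j).1 (e j).2 g (by
      ext z
      exact indicator_of_notMem (fun h => Set.disjoint_left.1 hd h z.2) _)
    have h2 : ∫ z, g z ∂(ν (e j).1 (e j).2) = (ν (e j).1 (e j).2).real C :=
      integral_indicator_one hC.measurableSet
    rw [h2] at h1
    exact (measureReal_eq_zero_iff (measure_ne_top _ _)).1 h1)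
  obtain ⟨H', hH', hl⟩ := lint_act f Q hgood (WS ∅) (g := fun _ => 1) measurable_const
  let X := {p : MS × ℝ // T.node f (Q, p.1, p.2) ∉ H}
  let nd : X → T := fun p => T.node f (Q, p.1.1, p.1.2)
  let mX : MeasurableSpace X := MeasurableSpace.comap (fun p => code (nd p)) inferInstance
  have hval : ∀ n, ∃ τ : (ℕ → Bool) → ℝ, Measurable τ ∧ ∀ p : X, φ n (test (nd p)) =
      τ (code (nd p)) := by
    intro n
    obtain ⟨j₁, hj₁⟩ := he (n, true)
    obtain ⟨j₂, hj₂⟩ := he (n, false)
    refine ⟨fun w => (t j₁ w).toReal - (t j₂ w).toReal,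
      (ht1 j₁).ennreal_toReal.sub (ht1 j₂).ennreal_toReal, fun p => ?_⟩
    have h1 := ht2 p.1.1 p.1.2 p.2 j₁
    have h2 := ht2 p.1.1 p.1.2 p.2 j₂
    simp only [hj₁, hj₂] at h1 h2
    simp only [nd]
    rw [← h1, ← h2, test, map_smul, hν3, integral_ind, integral_ind, ENNReal.toReal_mul,
      ENNReal.toReal_mul, smul_eq_mul]
    ring
  have hmap : MeasurableSpace.comap (fun p : X => test (nd p))
      (⨆ ψ ∈ J, MeasurableSpace.comap ψ (borel ℝ)) ≤ mX := by
    rw [MeasurableSpace.comap_iSup]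
    refine iSup_le fun ψ => ?_
    rw [MeasurableSpace.comap_iSup]
    refine iSup_le fun hψ => ?_
    have : ψ ∈ range φ := hφ ▸ mem_insert_of_mem _ hψ
    obtain ⟨n, rfl⟩ := this
    obtain ⟨τ, hτ, hτ2⟩ := hval n
    rintro _ ⟨_, ⟨u, hu, rfl⟩, rfl⟩
    refine ⟨τ ⁻¹' u, hτ hu, ?_⟩
    ext p
    simp only [mem_preimage, hτ2]
  obtain ⟨B, hBm, hBe⟩ := hmap _ ⟨_, hBJ, rfl⟩
  have hunc : ∃ r : ℝ, T.node f (Q, ⟨B, hBm⟩, r) ∉ H ∪ H' := by
    by_contra hc
    push Not at hc
    have hinj : Injective fun r : ℝ => T.node f (Q, ⟨B, hBm⟩, r) := by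
      intro r r' h
      simpa using h
    have h1 : ((fun r : ℝ => T.node f (Q, ⟨B, hBm⟩, r)) ⁻¹' (H ∪ H')).Countable :=
      (hH.union hH').preimage hinj
    exact Cardinal.not_countable_real (h1.mono fun r _ => hc r)
  obtain ⟨r, hr⟩ := hunc
  let p : X := ⟨(⟨B, hBm⟩, r), fun h => hr (Or.inl h)⟩
  have hiff : code (nd p) ∈ B ↔ ‖test (nd p)‖ ≤ 3 / 2 := Set.ext_iff.1 hBe p
  by_cases hR : Rare (nd p)
  · have h1 : ‖test (nd p)‖ ≤ 3 / 2 := hiff.1 hR
    have h2 : mu (WS ∅) (act (nd p)) ≠ 0 := by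
      have := (hl ⟨B, hBm⟩ r fun h => hr (Or.inr h)).2 (by simp [WS])
      simp only [lintegral_const, MeasurableSet.univ, Measure.restrict_apply, univ_inter,
        one_mul] at this
      change mu (WS ∅) (act (nd p)) = _ at this
      rw [this]
      exact mul_ne_zero (coin_true_ne _) (mu_Fs_ne_zero f Q hgood)
    obtain ⟨A, hA⟩ := WS_eq_V ∅ 0 (by simp)
    have h3 : ¬ Disjoint (act (nd p)) K := fun hd =>
      h2 (hA ▸ null_of_disjoint (finDep_act _).isClopen.isClosed hd _)
    obtain ⟨z, hz, hzK⟩ := Set.not_disjoint_iff.1 h3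
    have h4 := (test (nd p)).norm_coe_le_norm ⟨z, hzK⟩
    have hz' : z (nd p) = true := hz
    have h5 : test (nd p) ⟨z, hzK⟩ = 2 := by
      simp [test, ht, hR, ind, hz']
    rw [h5] at h4
    norm_num at h4
    linarith
  · apply hR
    refine hiff.2 (le_trans ?_ (by norm_num : (1 : ℝ) ≤ 3 / 2))
    refine (ContinuousMap.norm_le _ zero_le_one).2 fun z => ?_
    by_cases hz : z.1 (nd p) = true <;> simp [test, ht, hR, ind, hz]

end Pool.Agent.H53Z.WB
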